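import Pool.Agent.MP_ca1109_lc.Pn.Defs
import Pool.Agent.MP_ca1109_lc.Pt.AU
import Pool.Agent.MP_ca1109_lc.Pt.SN

/-!
# Row BL: calculus of `Bln`
-/

namespace Pool.Agent.MP_ca1109_lc.Pn

open Finset Pool.Agent.H66 Pool.Agent.MP_ca1109_lc.Mpg Pool.Agent.MP_ca1109_lc.Agp
  Pool.Agent.MP_ca1109_lc.Xp Pool.Agent.MP_ca1109_lc.Pt
open Pool.Agent.MP_ca1109_lc.Dnf (Cube ch one On)

variable {n : ℕ}

/-- Functions of short blocks. -/
theorem Blk.toBln {N : ℕ} {J : Finset (Fin n)} {I : Fin n → Finset (Fin n)}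
    {f : Fin n → Cube n → ℂ} (h : Blk N J I f) : Bln N J I f where
  pos := h.pos
  dj := h.dj
  on := h.on
  le := h.le
  sp := fun j hj => by
    have h1 := sp_on (h.on j hj) (h.le j hj)
    refine h1.mono ?_
    have h2 : ((2 ^ (I j).card : ℕ) : ℝ) ≤ N := by exact_mod_cast h.wd j hj
    push_cast at h2
    linarith

theorem Bln.sub {N : ℕ} {J J' : Finset (Fin n)} {I : Fin n → Finset (Fin n)}
    {f : Fin n → Cube n → ℂ} (h : Bln N J I f) (hJ : J' ⊆ J) : Bln N J' I f where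
  pos := h.pos
  dj := fun i hi j hj hij => h.dj i (hJ hi) j (hJ hj) hij
  on := fun j hj => h.on j (hJ hj)
  le := fun j hj => h.le j (hJ hj)
  sp := fun j hj => h.sp j (hJ hj)

theorem Bln.mono {N N' : ℕ} {J : Finset (Fin n)} {I : Fin n → Finset (Fin n)}
    {f : Fin n → Cube n → ℂ} (h : Bln N J I f) (hN : N ≤ N') : Bln N' J I f where
  pos := h.pos.trans hN
  dj := h.dj
  on := h.on
  le := h.le
  sp := fun j hj => (h.sp j hj).mono (by exact_mod_cast hN)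

theorem dr_bln {N : ℕ} {J : Finset (Fin n)} {I : Fin n → Finset (Fin n)}
    {f : Fin n → Cube n → ℂ} (h : Bln N J I f) (W : Cube n) :
    Bln (N ^ 2) J I (fun j => dr (f j) W) where
  pos := Nat.one_le_pow _ _ h.pos
  dj := h.dj
  on := fun j hj x y hxy => by
    have h1 := h.on j hj x y hxy
    have h2 := h.on j hj (xo x W) (xo y W) fun i hi => by
      show xor (x i) (W i) = xor (y i) (W i)
      rw [hxy i hi]
    show f j x * (starRingEnd ℂ) (f j (xo x W)) = f j y * (starRingEnd ℂ) (f j (xo y W))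
    rw [h1, h2]
  le := fun j hj x => by
    show ‖f j x * (starRingEnd ℂ) (f j (xo x W))‖ ≤ 1
    rw [norm_mul, RCLike.norm_conj]
    exact mul_le_one₀ (h.le j hj x) (norm_nonneg _) (h.le j hj _)
  sp := fun j hj => by
    have h1 := (h.sp j hj).mul ((h.sp j hj).xo W).conj
    refine (h1.mono (le_of_eq ?_)).congr' fun x => rfl
    push_cast
    ring

theorem bd_sq {K N : ℕ} (hN : 1 ≤ N) (n : ℕ) : bd K n (N ^ 2) ≤ bd (2 * K) n N := by
  unfold bd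
  have hn : (0 : ℝ) ≤ n := Nat.cast_nonneg n
  have h1 : (1 : ℝ) ≤ N := by exact_mod_cast hN
  have h2 : ((n : ℝ) + 1) * ((N ^ 2 : ℕ) : ℝ) ≤ (((n : ℝ) + 1) * N) ^ 2 := by
    push_cast
    nlinarith [mul_nonneg (mul_nonneg hn (add_nonneg hn zero_le_one)) (sq_nonneg (N : ℝ))]
  have h3 : (((n : ℝ) + 1) * ((N ^ 2 : ℕ) : ℝ)) ^ K ≤ ((((n : ℝ) + 1) * N) ^ 2) ^ K :=
    pow_le_pow_left₀ (by positivity) h2 K
  have h4 : ((K : ℕ) : ℝ) ≤ ((2 * K : ℕ) : ℝ) := by exact_mod_cast (by omega : K ≤ 2 * K)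
  calc (K : ℝ) * (((n : ℝ) + 1) * ((N ^ 2 : ℕ) : ℝ)) ^ K
      ≤ ((2 * K : ℕ) : ℝ) * ((((n : ℝ) + 1) * N) ^ 2) ^ K :=
        mul_le_mul h4 h3 (by positivity) (by positivity)
    _ = ((2 * K : ℕ) : ℝ) * (((n : ℝ) + 1) * N) ^ (2 * K) := by rw [← pow_mul]

end Pool.Agent.MP_ca1109_lc.Pn
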