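import Pool.Agent.MP_ca1109_lc.Pn.Defs
import Pool.Agent.MP_ca1109_lc.Pt.MZ

/-!
# Row D2: small bias gives the parities of small sets
-/

namespace Pool.Agent.MP_ca1109_lc.Pn

open Finset Pool.Agent.H66 Pool.Agent.MP_ca1109_lc.Mpg Pool.Agent.MP_ca1109_lc.Agp
  Pool.Agent.MP_ca1109_lc.Xp Pool.Agent.MP_ca1109_lc.Pt
open Pool.Agent.MP_ca1109_lc.Dnf (Cube ch one On)

variable {n : ℕ}

theorem dis2 {L s l : ℕ} (hl : l ≤ L) (d : Fin (2 ^ s) → Bool) {Ω : Type} [Fintype Ω]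
    [Nonempty Ω] (Z : Ω → Cube (n * (L + s))) (δ : ℝ) (hδ : 0 ≤ δ) (hZ : Bias δ Z) :
    Dis2 (pd l s d) (δ * 4 ^ (s + 2)) (fun ω => wd (eta (Z ω) l) (hsh (Z ω)) d) := by
  intro U hU
  have h := fool_real hδ hZ (cc_sp hl d U)
  rw [cc_avg hl d U] at h
  refine h.trans (mul_le_mul_of_nonneg_left ?_ hδ)
  refine pow_le_pow_left₀ (by positivity) ?_ _
  calc (2 : ℝ) ^ U.card ≤ 2 ^ 2 := pow_le_pow_right₀ (by norm_num) hU
    _ = 4 := by norm_num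

end Pool.Agent.MP_ca1109_lc.Pn
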