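import Pool.Agent.MP_ca1109_lc.Pn.Defs
import Pool.Agent.MP_ca1109_lc.Pt.AU

/-!
# Row HV: the second moment of the heavy characters
-/

namespace Pool.Agent.MP_ca1109_lc.Pn

open Finset Pool.Agent.H66 Pool.Agent.MP_ca1109_lc.Mpg Pool.Agent.MP_ca1109_lc.Agp
  Pool.Agent.MP_ca1109_lc.Xp Pool.Agent.MP_ca1109_lc.Pt
open Pool.Agent.MP_ca1109_lc.Dnf (Cube ch one On)

variable {n : ℕ}

section HG

variable {Ω : Type*} [Fintype Ω] [Nonempty Ω] {W : Ω → Cube n} {m : Finset (Fin n) → ℝ} {ε₀ : ℝ}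

theorem hg_pair (hm : ∀ U, |m U| ≤ 1)
    (hW : ∀ U, |(avg fun ω => cc U (W ω)) - m U| ≤ ε₀) {U U' : Finset (Fin n)}
    (hd : Disjoint U U') (hmm : m (U ∪ U') = m U * m U') :
    (avg fun ω => (cc U (W ω) - m U) * (cc U' (W ω) - m U')) ≤ 3 * ε₀ := by
  have h1 : ∀ ω, (cc U (W ω) - m U) * (cc U' (W ω) - m U') =
      cc (U ∪ U') (W ω) - m U' * cc U (W ω) - m U * cc U' (W ω) + m U * m U' := by
    intro ω
    have h2 : cc (U ∪ U') (W ω) = cc U (W ω) * cc U' (W ω) := by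
      unfold cc
      rw [prod_union hd]
    rw [h2]
    ring
  simp only [h1]
  rw [avg_add, avg_sub, avg_sub, avg_mul_left, avg_mul_left, avg_const]
  have h3 := abs_le.1 (hW (U ∪ U'))
  have h4 := abs_le.1 (hW U)
  have h5 := abs_le.1 (hW U')
  have h6 : |m U' * ((avg fun ω => cc U (W ω)) - m U)| ≤ ε₀ := by
    rw [abs_mul]
    calc |m U'| * |(avg fun ω => cc U (W ω)) - m U| ≤ 1 * ε₀ :=
          mul_le_mul (hm U') (hW U) (abs_nonneg _) zero_le_one
      _ = ε₀ := one_mul _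
  have h7 : |m U * ((avg fun ω => cc U' (W ω)) - m U')| ≤ ε₀ := by
    rw [abs_mul]
    calc |m U| * |(avg fun ω => cc U' (W ω)) - m U'| ≤ 1 * ε₀ :=
          mul_le_mul (hm U) (hW U') (abs_nonneg _) zero_le_one
      _ = ε₀ := one_mul _
  have h8 := abs_le.1 h6
  have h9 := abs_le.1 h7
  rw [hmm] at h3
  nlinarith [h3.2, h8.1, h9.1]

/-- The second moment. -/
theorem hg_sq (hε : 0 ≤ ε₀) (hm : ∀ U, |m U| ≤ 1)
    (hmm : ∀ U U' : Finset (Fin n), Disjoint U U' → m (U ∪ U') = m U * m U')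
    (hW : ∀ U, |(avg fun ω => cc U (W ω)) - m U| ≤ ε₀)
    {J : Finset (Fin n)} {I : Fin n → Finset (Fin n)}
    (hI : ∀ i ∈ J, ∀ j ∈ J, i ≠ j → Disjoint (I i) (I j))
    (b : Fin n → Finset (Fin n) → ℝ) (hb : ∀ j ∈ J, ∀ U, 0 ≤ b j U) (hb1 : ∀ j ∈ J, ∑ U, b j U ≤ 1)
    (hs : ∀ j ∈ J, ∀ U, ¬ U ⊆ I j → b j U = 0) :
    (avg fun ω => (∑ j ∈ J, ∑ U, b j U * (cc U (W ω) - m U)) ^ 2) ≤
      3 * ε₀ * (∑ j ∈ J, ∑ U, b j U) ^ 2 + 4 * ∑ j ∈ J, ∑ U, b j U := by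
  classical
  set X : Fin n → Ω → ℝ := fun j ω => ∑ U, b j U * (cc U (W ω) - m U) with hX
  set B : Fin n → ℝ := fun j => ∑ U, b j U with hB
  have hB0 : ∀ j ∈ J, 0 ≤ B j := fun j hj => sum_nonneg fun U _ => hb j hj U
  have h1 : (fun ω => (∑ j ∈ J, X j ω) ^ 2) = fun ω => ∑ i ∈ J, ∑ j ∈ J, X i ω * X j ω := by
    funext ω
    rw [sq, sum_mul_sum]
  have hdiag : ∀ j ∈ J, (avg fun ω => X j ω * X j ω) ≤ 4 * B j := by
    intro j hj
    have h2 : ∀ ω, X j ω * X j ω ≤ 4 * B j := by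
      intro ω
      have h3 : |X j ω| ≤ 2 * B j := by
        rw [hX, hB]
        simp only
        rw [mul_sum]
        refine (abs_sum_le_sum_abs _ _).trans (sum_le_sum fun U _ => ?_)
        rw [abs_mul, abs_of_nonneg (hb j hj U)]
        have h4 : |cc U (W ω) - m U| ≤ 2 := by
          refine (abs_sub _ _).trans ?_
          rw [cc_abs]
          linarith [hm U]
        nlinarith [hb j hj U]
      have h5 := abs_nonneg (X j ω)
      have h6 : X j ω * X j ω = |X j ω| * |X j ω| := (abs_mul_abs_self _).symm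
      have h7 := hb1 j hj
      have h8 : B j ≤ 1 := h7
      rw [h6]
      nlinarith [hB0 j hj]
    exact (avg_mono h2).trans (le_of_eq (avg_const _))
  have hoff : ∀ i ∈ J, ∀ j ∈ J, i ≠ j → (avg fun ω => X i ω * X j ω) ≤ 3 * ε₀ * (B i * B j) := by
    intro i hi j hj hij
    have h2 : (fun ω => X i ω * X j ω) = fun ω => ∑ U, ∑ U', (b i U * b j U') *
        ((cc U (W ω) - m U) * (cc U' (W ω) - m U')) := by
      funext ω
      rw [hX]
      simp only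
      rw [sum_mul_sum]
      exact sum_congr rfl fun U _ => sum_congr rfl fun U' _ => by ring
    rw [h2, avg_sum]
    have h3 : 3 * ε₀ * (B i * B j) = ∑ U, ∑ U', (b i U * b j U') * (3 * ε₀) := by
      rw [hB]
      simp only
      rw [sum_mul_sum, mul_sum]
      refine sum_congr rfl fun U _ => ?_
      rw [mul_sum]
      exact sum_congr rfl fun U' _ => by ring
    rw [h3]
    refine sum_le_sum fun U _ => ?_
    rw [avg_sum]
    refine sum_le_sum fun U' _ => ?_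
    rw [avg_mul_left]
    by_cases hU : U ⊆ I i
    · by_cases hU' : U' ⊆ I j
      · refine mul_le_mul_of_nonneg_left ?_ (mul_nonneg (hb i hi U) (hb j hj U'))
        have hd : Disjoint U U' := disjoint_of_subset_left hU (disjoint_of_subset_right hU' (hI i hi j hj hij))
        exact hg_pair hm hW hd (hmm U U' hd)
      · rw [hs j hj U' hU', mul_zero, zero_mul, zero_mul]
    · rw [hs i hi U hU, zero_mul, zero_mul, zero_mul]
  have h2 : (avg fun ω => (∑ j ∈ J, X j ω) ^ 2) ≤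
      ∑ i ∈ J, ∑ j ∈ J, (3 * ε₀ * (B i * B j) + if i = j then 4 * B j else 0) := by
    rw [h1, avg_sum]
    refine sum_le_sum fun i hi => ?_
    rw [avg_sum]
    refine sum_le_sum fun j hj => ?_
    split_ifs with hij
    · subst hij
      have h3 := hdiag i hi
      have h4 : 0 ≤ 3 * ε₀ * (B i * B i) := mul_nonneg (by linarith) (mul_self_nonneg _)
      linarith
    · rw [add_zero]
      exact hoff i hi j hj hij
  refine h2.trans (le_of_eq ?_)
  simp only [sum_add_distrib]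
  congr 1
  · rw [sq, sum_mul_sum, mul_sum]
    exact sum_congr rfl fun i _ => by rw [mul_sum]
  · rw [mul_sum]
    refine sum_congr rfl fun i hi => ?_
    rw [sum_ite_eq, if_pos hi]

end HG

/-- `b j U` are nonnegative weights with `∑ U, b j U ≤ 1`, carried by disjoint blocks. -/
theorem heavy {Ω : Type} [Fintype Ω] [Nonempty Ω] {W : Ω → Cube n} {p ε₀ : ℝ}
    (hp : 0 ≤ p) (hp1 : p ≤ 1 / 2) (h0 : 0 ≤ ε₀) (hW : Dist p ε₀ W) (J : Finset (Fin n))
    (I : Fin n → Finset (Fin n)) (hd : ∀ i ∈ J, ∀ j ∈ J, i ≠ j → Disjoint (I i) (I j))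
    (b : Fin n → Finset (Fin n) → ℝ) (hb : ∀ j ∈ J, ∀ U, 0 ≤ b j U)
    (hb1 : ∀ j ∈ J, ∑ U, b j U ≤ 1) (hbI : ∀ j ∈ J, ∀ U, ¬ U ⊆ I j → b j U = 0) :
    (avg fun ω => (∑ j ∈ J, ∑ U, b j U * (cc U (W ω) - (1 - 2 * p) ^ U.card)) ^ 2) ≤
      3 * ε₀ * (∑ j ∈ J, ∑ U, b j U) ^ 2 + 4 * ∑ j ∈ J, ∑ U, b j U := by
  refine hg_sq (m := fun U => (1 - 2 * p) ^ U.card) h0 (fun U => ?_) (fun U U' hUU => ?_) hW hd b
    hb hb1 hbI
  · rw [abs_pow]
    exact pow_le_one₀ (abs_nonneg _) (abs_le.2 ⟨by linarith, by linarith⟩)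
  · rw [card_union_of_disjoint hUU, pow_add]

end Pool.Agent.MP_ca1109_lc.Pn
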