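import Pool.Agent.MP_ca1109_lc.Pn.LT
import Pool.Agent.MP_ca1109_lc.Pn.HV

/-!
# Row LB: the loss at a random shift
-/

namespace Pool.Agent.MP_ca1109_lc.Pn

open Finset Pool.Agent.H66 Pool.Agent.MP_ca1109_lc.Mpg Pool.Agent.MP_ca1109_lc.Agp
  Pool.Agent.MP_ca1109_lc.Xp Pool.Agent.MP_ca1109_lc.Pt
open Pool.Agent.MP_ca1109_lc.Dnf (Cube ch one On)

variable {n : ℕ}

/-- The light weights. -/
noncomputable def bL (f : Fin n → Cube n → ℂ) (p e : ℝ) (j : Fin n) (U : Finset (Fin n)) : ℝ :=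
  if p * U.card ≤ e then cb (f j) U else 0

/-- The heavy weights. -/
noncomputable def bH (f : Fin n → Cube n → ℂ) (p e : ℝ) (j : Fin n) (U : Finset (Fin n)) : ℝ :=
  if p * U.card ≤ e then 0 else cb (f j) U

section LB

variable {N : ℕ} {J : Finset (Fin n)} {I : Fin n → Finset (Fin n)} {f : Fin n → Cube n → ℂ}
  {p e : ℝ}

theorem bL_nonneg (j : Fin n) (U : Finset (Fin n)) : 0 ≤ bL f p e j U := by
  unfold bL
  split_ifs
  · exact cb_nonneg _ _
  · exact le_rfl

theorem bH_nonneg (j : Fin n) (U : Finset (Fin n)) : 0 ≤ bH f p e j U := by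
  unfold bH
  split_ifs
  · exact le_rfl
  · exact cb_nonneg _ _

theorem bL_le (j : Fin n) (U : Finset (Fin n)) : bL f p e j U ≤ cb (f j) U := by
  unfold bL
  split_ifs
  · exact le_rfl
  · exact cb_nonneg _ _

theorem bH_le (j : Fin n) (U : Finset (Fin n)) : bH f p e j U ≤ cb (f j) U := by
  unfold bH
  split_ifs
  · exact cb_nonneg _ _
  · exact le_rfl

theorem bLH (j : Fin n) (U : Finset (Fin n)) : bL f p e j U + bH f p e j U = cb (f j) U := by
  unfold bL bH
  split_ifs <;> ring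

theorem bL_sum (h : Bln N J I f) {j : Fin n} (hj : j ∈ J) : ∑ U, bL f p e j U ≤ 1 :=
  (sum_le_sum fun U _ => bL_le j U).trans (cb_sum (f j) (h.le j hj))

theorem bH_sum (h : Bln N J I f) {j : Fin n} (hj : j ∈ J) : ∑ U, bH f p e j U ≤ 1 :=
  (sum_le_sum fun U _ => bH_le j U).trans (cb_sum (f j) (h.le j hj))

theorem bL_on (h : Bln N J I f) {j : Fin n} (hj : j ∈ J) {U : Finset (Fin n)} (hU : ¬ U ⊆ I j) :
    bL f p e j U = 0 :=
  le_antisymm ((bL_le j U).trans_eq (cb_on (h.on j hj) hU)) (bL_nonneg j U)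

theorem bH_on (h : Bln N J I f) {j : Fin n} (hj : j ∈ J) {U : Finset (Fin n)} (hU : ¬ U ⊆ I j) :
    bH f p e j U = 0 :=
  le_antisymm ((bH_le j U).trans_eq (cb_on (h.on j hj) hU)) (bH_nonneg j U)

/-- The constant part of the loss. -/
noncomputable def l0 (J : Finset (Fin n)) (f : Fin n → Cube n → ℂ) : ℝ :=
  ∑ j ∈ J, (1 - ∑ U, cb (f j) U)

theorem l0_nonneg (h : Bln N J I f) : 0 ≤ l0 J f :=
  sum_nonneg fun j hj => by linarith [cb_sum (f j) (h.le j hj)]

theorem lb_split (J : Finset (Fin n)) (f : Fin n → Cube n → ℂ) (p e : ℝ)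
    (F : Finset (Fin n) → ℝ) :
    ∑ j ∈ J, (1 - ∑ U, cb (f j) U * F U) = l0 J f +
      (∑ j ∈ J, ∑ U, bL f p e j U * (1 - F U)) + ∑ j ∈ J, ∑ U, bH f p e j U * (1 - F U) := by
  unfold l0
  rw [← sum_add_distrib, ← sum_add_distrib]
  refine sum_congr rfl fun j _ => ?_
  rw [add_assoc, ← sum_add_distrib]
  have h1 : ∑ U, (bL f p e j U * (1 - F U) + bH f p e j U * (1 - F U)) =
      ∑ U, cb (f j) U - ∑ U, cb (f j) U * F U := by
    rw [← sum_sub_distrib]
    refine sum_congr rfl fun U _ => ?_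
    rw [← bLH (p := p) (e := e) j U]
    ring
  rw [h1]
  ring

theorem lo_split (J : Finset (Fin n)) (f : Fin n → Cube n → ℂ) (p e : ℝ) (W : Cube n) :
    Lo J f W = l0 J f + (∑ j ∈ J, ∑ U, bL f p e j U * (1 - cc U W)) +
      ∑ j ∈ J, ∑ U, bH f p e j U * (1 - cc U W) := by
  rw [← lb_split]
  unfold Lo
  exact sum_congr rfl fun j _ => by rw [normsq_au]

theorem ls_split (J : Finset (Fin n)) (f : Fin n → Cube n → ℂ) (p e : ℝ) :
    Ls J f p = l0 J f + (∑ j ∈ J, ∑ U, bL f p e j U * (1 - (1 - 2 * p) ^ U.card)) +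
      ∑ j ∈ J, ∑ U, bH f p e j U * (1 - (1 - 2 * p) ^ U.card) :=
  lb_split J f p e fun U => (1 - 2 * p) ^ U.card

theorem cc_le_one (U : Finset (Fin n)) (W : Cube n) : cc U W ≤ 1 :=
  (le_abs_self _).trans (cc_abs U W).le

theorem one_sub_cc_le (U : Finset (Fin n)) (W : Cube n) : 1 - cc U W ≤ 2 := by
  have h := cc_abs U W
  have h2 := neg_abs_le (cc U W)
  rw [h] at h2
  linarith

theorem pow_le_one' (hp : 0 ≤ p) (hp1 : p ≤ 1 / 2) (k : ℕ) : (1 - 2 * p) ^ k ≤ 1 :=
  pow_le_one₀ (by linarith) (by linarith)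

/-- `1 - (1 - 2p)^k ≤ 2pk`. -/
theorem light_le (hp : 0 ≤ p) (hp1 : p ≤ 1 / 2) (k : ℕ) : 1 - (1 - 2 * p) ^ k ≤ 2 * p * k := by
  have h3 := one_add_mul_le_pow (a := -(2 * p)) (by linarith) k
  have h5 : (1 + -(2 * p)) = 1 - 2 * p := by ring
  rw [h5] at h3
  linarith

/-- `2pk ≤ 2 (1 - (1 - 2p)^k)` for `2pk ≤ 1`. -/
theorem light_ge (hp : 0 ≤ p) (hp1 : p ≤ 1 / 2) (k : ℕ) (hk : 2 * p * k ≤ 1) :
    2 * p * k ≤ 2 * (1 - (1 - 2 * p) ^ k) := by
  -- `(1 - x)^k ≤ exp (-kx) ≤ 1 - kx/2`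
  have h1 : (1 - 2 * p) ^ k ≤ Real.exp (-(2 * p * k)) := by
    have h2 : 1 - 2 * p ≤ Real.exp (-(2 * p)) := by
      have := Real.add_one_le_exp (-(2 * p))
      linarith
    calc (1 - 2 * p) ^ k ≤ Real.exp (-(2 * p)) ^ k := pow_le_pow_left₀ (by linarith) h2 k
      _ = Real.exp (-(2 * p * k)) := by
        rw [← Real.exp_nat_mul]
        congr 1
        ring
  have h2 : Real.exp (-(2 * p * k)) ≤ 1 - (2 * p * k) / 2 := by
    set x : ℝ := 2 * p * k with hx
    have hx0 : 0 ≤ x := by positivity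
    have h3 : Real.exp (-x) * (1 + x) ≤ 1 := by
      have h4 := Real.add_one_le_exp x
      calc Real.exp (-x) * (1 + x) ≤ Real.exp (-x) * Real.exp x :=
            mul_le_mul_of_nonneg_left (by linarith) (Real.exp_pos _).le
        _ = 1 := by rw [← Real.exp_add]; simp
    have h5 : 1 ≤ (1 - x / 2) * (1 + x) := by nlinarith
    have h6 : 0 < 1 + x := by linarith
    have h7 : Real.exp (-x) * (1 + x) ≤ (1 - x / 2) * (1 + x) := h3.trans h5
    exact le_of_mul_le_mul_right h7 h6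
  linarith

/-- Heavy sets: `e ≤ 1 - (1 - 2p)^k`. -/
theorem heavy_ge (hp : 0 ≤ p) (hp1 : p ≤ 1 / 2) (he : 0 < e) (he1 : e ≤ 1 / 2) (k : ℕ)
    (hk : e ≤ p * k) : e ≤ 1 - (1 - 2 * p) ^ k := by
  have h1 : (1 - 2 * p) ^ k ≤ Real.exp (-(2 * e)) := by
    have h2 : 1 - 2 * p ≤ Real.exp (-(2 * p)) := by
      have := Real.add_one_le_exp (-(2 * p))
      linarith
    calc (1 - 2 * p) ^ k ≤ Real.exp (-(2 * p)) ^ k := pow_le_pow_left₀ (by linarith) h2 k
      _ = Real.exp (-(2 * (p * k))) := by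
        rw [← Real.exp_nat_mul]
        congr 1
        ring
      _ ≤ Real.exp (-(2 * e)) := Real.exp_le_exp.2 (by linarith)
  have h2 : Real.exp (-(2 * e)) ≤ 1 - e := by
    set x : ℝ := 2 * e with hx
    have hx0 : 0 ≤ x := by positivity
    have h3 : Real.exp (-x) * (1 + x) ≤ 1 := by
      have h4 := Real.add_one_le_exp x
      calc Real.exp (-x) * (1 + x) ≤ Real.exp (-x) * Real.exp x :=
            mul_le_mul_of_nonneg_left (by linarith) (Real.exp_pos _).le
        _ = 1 := by rw [← Real.exp_add]; simp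
    have h5 : 1 ≤ (1 - x / 2) * (1 + x) := by nlinarith
    have h6 : 0 < 1 + x := by linarith
    have h7 : Real.exp (-x) * (1 + x) ≤ (1 - x / 2) * (1 + x) := h3.trans h5
    have h8 := le_of_mul_le_mul_right h7 h6
    linarith
  linarith

/-! ## The linear form -/

/-- The coefficients of the linear form. -/
noncomputable def lc (J : Finset (Fin n)) (f : Fin n → Cube n → ℂ) (p e : ℝ) (i : Fin n) : ℝ :=
  ∑ j ∈ J, ∑ U, bL f p e j U * (if i ∈ U then 1 else 0)

theorem lc_nonneg (i : Fin n) : 0 ≤ lc J f p e i :=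
  sum_nonneg fun j _ => sum_nonneg fun U _ => mul_nonneg (bL_nonneg j U) (by split_ifs <;> norm_num)

theorem lc_le (h : Bln N J I f) (i : Fin n) : lc J f p e i ≤ 1 := by
  classical
  have h1 : ∀ j ∈ J, ∑ U, bL f p e j U * (if i ∈ U then 1 else 0) ≤
      if i ∈ I j then (1 : ℝ) else 0 := by
    intro j hj
    split_ifs with hi
    · refine le_trans (sum_le_sum fun U _ => ?_) (bL_sum h hj (p := p) (e := e))
      split_ifs
      · rw [mul_one]
      · rw [mul_zero]
        exact bL_nonneg j U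
    · refine le_of_eq (sum_eq_zero fun U _ => ?_)
      by_cases hU : U ⊆ I j
      · rw [if_neg (fun h' => hi (hU h')), mul_zero]
      · rw [bL_on h hj hU, zero_mul]
  refine (sum_le_sum h1).trans ?_
  rw [← sum_filter, sum_const, nsmul_eq_mul, mul_one]
  have h2 : (J.filter fun j => i ∈ I j).card ≤ 1 := by
    rw [card_le_one]
    intro a ha b hb
    rw [mem_filter] at ha hb
    by_contra hab
    exact disjoint_left.1 (h.dj a ha.1 b hb.1 hab) ha.2 hb.2
  exact_mod_cast h2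

theorem lc_form (F : Fin n → ℝ) :
    ∑ j ∈ J, ∑ U, bL f p e j U * ∑ i ∈ U, F i = ∑ i, lc J f p e i * F i := by
  have h1 : ∀ i, lc J f p e i * F i =
      ∑ j ∈ J, ∑ U, bL f p e j U * ((if i ∈ U then 1 else 0) * F i) := by
    intro i
    unfold lc
    rw [sum_mul]
    refine sum_congr rfl fun j _ => ?_
    rw [sum_mul]
    exact sum_congr rfl fun U _ => by ring
  symm
  calc ∑ i, lc J f p e i * F i
      = ∑ i, ∑ j ∈ J, ∑ U, bL f p e j U * ((if i ∈ U then 1 else 0) * F i) :=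
        sum_congr rfl fun i _ => h1 i
    _ = ∑ j ∈ J, ∑ i, ∑ U, bL f p e j U * ((if i ∈ U then 1 else 0) * F i) := sum_comm
    _ = ∑ j ∈ J, ∑ U, ∑ i, bL f p e j U * ((if i ∈ U then 1 else 0) * F i) :=
        sum_congr rfl fun j _ => sum_comm
    _ = ∑ j ∈ J, ∑ U, bL f p e j U * ∑ i ∈ U, F i := by
        refine sum_congr rfl fun j _ => sum_congr rfl fun U _ => ?_
        rw [← mul_sum]
        congr 1
        simp only [ite_mul, one_mul, zero_mul]
        rw [sum_ite_mem, univ_inter]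

theorem lc_sum : ∑ i, lc J f p e i = ∑ j ∈ J, ∑ U, bL f p e j U * (U.card : ℝ) := by
  have h := lc_form (J := J) (f := f) (p := p) (e := e) fun _ => 1
  simp only [sum_const, nsmul_eq_mul, mul_one] at h
  exact h.symm

/-- The number `Q`. -/
noncomputable def lq (J : Finset (Fin n)) (f : Fin n → Cube n → ℂ) (p e : ℝ) : ℝ :=
  2 * p * ∑ i, lc J f p e i

theorem lq_eq : lq J f p e = ∑ j ∈ J, ∑ U, bL f p e j U * (2 * p * U.card) := by
  unfold lq
  rw [lc_sum, mul_sum]
  refine sum_congr rfl fun j _ => ?_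
  rw [mul_sum]
  exact sum_congr rfl fun U _ => by ring

theorem lq_ge (hp : 0 ≤ p) (hp1 : p ≤ 1 / 2) :
    ∑ j ∈ J, ∑ U, bL f p e j U * (1 - (1 - 2 * p) ^ U.card) ≤ lq J f p e := by
  rw [lq_eq]
  refine sum_le_sum fun j _ => sum_le_sum fun U _ => ?_
  exact mul_le_mul_of_nonneg_left (light_le hp hp1 _) (bL_nonneg j U)

theorem lq_le (hp : 0 ≤ p) (hp1 : p ≤ 1 / 2) (he1 : e ≤ 1 / 2) :
    lq J f p e ≤ 2 * ∑ j ∈ J, ∑ U, bL f p e j U * (1 - (1 - 2 * p) ^ U.card) := by
  rw [lq_eq, mul_sum]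
  refine sum_le_sum fun j _ => ?_
  rw [mul_sum]
  refine sum_le_sum fun U _ => ?_
  by_cases hU : p * U.card ≤ e
  · have h1 := light_ge hp hp1 U.card (by nlinarith)
    have h2 := mul_le_mul_of_nonneg_left h1 (bL_nonneg (f := f) (p := p) (e := e) j U)
    linarith
  · have h1 : bL f p e j U = 0 := by
      unfold bL
      rw [if_neg hU]
    rw [h1]
    linarith

/-- The heavy mass. -/
noncomputable def lh (J : Finset (Fin n)) (f : Fin n → Cube n → ℂ) (p e : ℝ) : ℝ :=
  ∑ j ∈ J, ∑ U, bH f p e j U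

theorem lh_ge (hp : 0 ≤ p) (hp1 : p ≤ 1 / 2) :
    ∑ j ∈ J, ∑ U, bH f p e j U * (1 - (1 - 2 * p) ^ U.card) ≤ lh J f p e := by
  refine sum_le_sum fun j _ => sum_le_sum fun U _ => ?_
  refine mul_le_of_le_one_right (bH_nonneg j U) ?_
  have : (0 : ℝ) ≤ (1 - 2 * p) ^ U.card := pow_nonneg (by linarith) _
  linarith

theorem lh_le (hp : 0 ≤ p) (hp1 : p ≤ 1 / 2) (he : 0 < e) (he1 : e ≤ 1 / 2) :
    e * lh J f p e ≤ ∑ j ∈ J, ∑ U, bH f p e j U * (1 - (1 - 2 * p) ^ U.card) := by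
  unfold lh
  rw [mul_sum]
  refine sum_le_sum fun j _ => ?_
  rw [mul_sum]
  refine sum_le_sum fun U _ => ?_
  by_cases hU : p * U.card ≤ e
  · have h1 : bH f p e j U = 0 := by
      unfold bH
      rw [if_pos hU]
    rw [h1]
    linarith
  · rw [mul_comm]
    exact mul_le_mul_of_nonneg_left (heavy_ge hp hp1 he he1 _ (not_le.1 hU).le) (bH_nonneg j U)

end LB

theorem markov {Ω : Type} [Fintype Ω] {F G : Ω → ℝ} {a : ℝ} (ha : 0 < a) (hG : ∀ ω, 0 ≤ G ω)
    (h : ∀ ω, a < F ω → a ≤ G ω) : (avg fun ω => one (a < F ω)) ≤ avg G / a := by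
  rw [le_div_iff₀ ha, mul_comm, ← avg_mul_left]
  refine avg_mono fun ω => ?_
  by_cases h1 : a < F ω
  · rw [Dnf.one_true h1, mul_one]
    exact h ω h1
  · rw [Dnf.one_false h1, mul_zero]
    exact hG ω

/-- `N (N - 1) ≥ 0` for a number of bits. -/
theorem pair_nonneg (U : Finset (Fin n)) (W : Cube n) :
    0 ≤ (∑ i ∈ U, xi W i) * ((∑ i ∈ U, xi W i) - 1) := by
  have h1 : ∑ i ∈ U, xi W i = ((U.filter fun i => W i = true).card : ℝ) := by
    unfold xi
    rw [← sum_filter, sum_const, nsmul_eq_mul, mul_one]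
  rw [h1]
  rcases Nat.eq_zero_or_pos (U.filter fun i => W i = true).card with h2 | h2
  · rw [h2]
    simp
  · have h3 : (1 : ℝ) ≤ ((U.filter fun i => W i = true).card : ℝ) := by exact_mod_cast h2
    exact mul_nonneg (by linarith) (by linarith)

theorem loss_low {N : ℕ} {J : Finset (Fin n)} {I : Fin n → Finset (Fin n)}
    {f : Fin n → Cube n → ℂ} (h : Bln N J I f) {p e ε₀ δ : ℝ} (hp : 0 ≤ p) (hp1 : p ≤ 1 / 2)
    (he : 0 < e) (he1 : e ≤ 1 / 2) (h0 : 0 ≤ ε₀) (hδ : 0 ≤ δ) {Ω : Type} [Fintype Ω] [Nonempty Ω]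
    {W : Ω → Cube n} (hW : Dist p ε₀ W) (hW2 : Dis2 p δ W) (hL : 1 ≤ Ls J f p) :
    (avg fun ω => one (Lo J f (W ω) < e / 12 * Ls J f p)) ≤
      4 * e + 12 * ε₀ / e ^ 2 + 100 / (e ^ 2 * Ls J f p) + 1000 * ((n : ℝ) + 1) ^ 3 * δ := by
  classical
  set L := Ls J f p with hLdef
  have hL0 : 0 < L := by linarith
  have hn0 : (0 : ℝ) ≤ n := Nat.cast_nonneg n
  have hA : 0 ≤ 12 * ε₀ / e ^ 2 := by positivity
  have hB : 0 ≤ 100 / (e ^ 2 * L) := by positivity
  have hC : 0 ≤ 1000 * ((n : ℝ) + 1) ^ 3 * δ := by positivity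
  have hl0 := l0_nonneg h
  -- the parts of the loss
  have hlight : ∀ ω, 0 ≤ ∑ j ∈ J, ∑ U, bL f p e j U * (1 - cc U (W ω)) := fun ω =>
    sum_nonneg fun j _ => sum_nonneg fun U _ => mul_nonneg (bL_nonneg j U)
      (by linarith [cc_le_one U (W ω)])
  have hheavy : ∀ ω, 0 ≤ ∑ j ∈ J, ∑ U, bH f p e j U * (1 - cc U (W ω)) := fun ω =>
    sum_nonneg fun j _ => sum_nonneg fun U _ => mul_nonneg (bH_nonneg j U)
      (by linarith [cc_le_one U (W ω)])
  have hlo := fun ω => lo_split J f p e (W ω)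
  have hls := ls_split J f p e
  rw [← hLdef] at hls
  set Ll := ∑ j ∈ J, ∑ U, bL f p e j U * (1 - (1 - 2 * p) ^ U.card) with hLl
  set Lh := ∑ j ∈ J, ∑ U, bH f p e j U * (1 - (1 - 2 * p) ^ U.card) with hLh
  have heL : e / 12 * L ≤ L / 12 := by nlinarith
  by_cases c0 : L / 3 ≤ l0 J f
  · -- the constant part
    have h1 : ∀ ω, one (Lo J f (W ω) < e / 12 * L) = 0 := fun ω => by
      refine Dnf.one_false (not_lt.2 ?_)
      rw [hlo ω]
      have := hlight ω
      have := hheavy ω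
      linarith
    simp only [h1]
    rw [avg_const]
    positivity
  by_cases c1 : L / 3 ≤ Ll
  · -- the light part
    set Q := lq J f p e with hQ
    have hQL : L / 3 ≤ Q := c1.trans (lq_ge hp hp1)
    have hQ0 : 0 < Q := by linarith
    set X1 : Ω → ℝ := fun ω => 2 * ∑ i, lc J f p e i * xi (W ω) i with hX1
    set X2 : Ω → ℝ := fun ω => ∑ j ∈ J, ∑ U, 2 * bL f p e j U *
      ((∑ i ∈ U, xi (W ω) i) * ((∑ i ∈ U, xi (W ω) i) - 1)) with hX2
    have hX2n : ∀ ω, 0 ≤ X2 ω := fun ω => sum_nonneg fun j _ => sum_nonneg fun U _ =>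
      mul_nonneg (mul_nonneg (by norm_num) (bL_nonneg j U)) (pair_nonneg U (W ω))
    have hlow : ∀ ω, X1 ω - X2 ω ≤ Lo J f (W ω) := by
      intro ω
      have h1 : X1 ω - X2 ω = ∑ j ∈ J, ∑ U, bL f p e j U *
          (2 * (∑ i ∈ U, xi (W ω) i) - 2 * (∑ i ∈ U, xi (W ω) i) * ((∑ i ∈ U, xi (W ω) i) - 1)) := by
        have h2 := lc_form (J := J) (f := f) (p := p) (e := e) (xi (W ω))
        rw [hX1, hX2]
        simp only
        rw [← h2, mul_sum, ← sum_sub_distrib]
        refine sum_congr rfl fun j _ => ?_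
        rw [mul_sum, ← sum_sub_distrib]
        exact sum_congr rfl fun U _ => by ring
      have h2 : X1 ω - X2 ω ≤ ∑ j ∈ J, ∑ U, bL f p e j U * (1 - cc U (W ω)) := by
        rw [h1]
        exact sum_le_sum fun j _ => sum_le_sum fun U _ =>
          mul_le_mul_of_nonneg_left (cc_low U (W ω)) (bL_nonneg j U)
      rw [hlo ω]
      have := hheavy ω
      linarith
    -- the two tails
    have ht1 : (avg fun ω => one ((Q / 2) ^ 2 < (X1 ω - Q) ^ 2)) ≤
        24 / L + 252 * ((n : ℝ) + 1) ^ 2 * δ := by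
      have h1 := markov (F := fun ω => (X1 ω - Q) ^ 2) (G := fun ω => (X1 ω - Q) ^ 2)
        (a := (Q / 2) ^ 2) (by positivity) (fun ω => sq_nonneg _) fun ω hω => hω.le
      have h2 := lin_var hW2 hδ hp hp1 (lc J f p e) lc_nonneg (lc_le h)
      have h3 : avg (fun ω => (X1 ω - Q) ^ 2) ≤ 2 * Q + 7 * ((n : ℝ) + 1) ^ 2 * δ := h2
      refine h1.trans ?_
      rw [div_le_iff₀ (by positivity)]
      refine h3.trans ?_
      -- `2 Q ≤ 24 / L * (Q / 2)^2`, `7 (n+1)² δ ≤ 252 (n+1)² δ (Q/2)²`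
      have h4 : 2 * Q ≤ 24 / L * (Q / 2) ^ 2 := by
        rw [div_mul_eq_mul_div, le_div_iff₀ hL0]
        nlinarith
      have h5 : 1 / 3 ≤ Q := by linarith
      have h6 : 7 ≤ 252 * (Q / 2) ^ 2 := by nlinarith
      have h7 : 0 ≤ ((n : ℝ) + 1) ^ 2 * δ := by positivity
      nlinarith [mul_le_mul_of_nonneg_right h6 h7]
    have ht2 : (avg fun ω => one (Q / 4 < X2 ω)) ≤ 4 * e + 24 * ((n : ℝ) + 1) ^ 3 * δ := by
      have h1 := markov (F := X2) (G := X2) (a := Q / 4) (by positivity) hX2n fun ω hω => hω.le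
      have h2 : avg X2 ≤ e * Q + 2 * ((n : ℝ) + 1) ^ 3 * δ := by
        have h3 : avg X2 = ∑ j ∈ J, ∑ U, 2 * bL f p e j U *
            avg (fun ω => (∑ i ∈ U, xi (W ω) i) * ((∑ i ∈ U, xi (W ω) i) - 1)) := by
          rw [hX2, avg_sum]
          refine sum_congr rfl fun j _ => ?_
          rw [avg_sum]
          exact sum_congr rfl fun U _ => avg_mul_left _ _
        rw [h3]
        have h4 : ∀ j ∈ J, ∑ U, 2 * bL f p e j U *
            avg (fun ω => (∑ i ∈ U, xi (W ω) i) * ((∑ i ∈ U, xi (W ω) i) - 1)) ≤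
            e * (∑ U, bL f p e j U * (2 * p * U.card)) + 2 * ((n : ℝ) + 1) ^ 2 * δ := by
          intro j hj
          have h5 : ∀ U : Finset (Fin n), 2 * bL f p e j U *
              avg (fun ω => (∑ i ∈ U, xi (W ω) i) * ((∑ i ∈ U, xi (W ω) i) - 1)) ≤
              e * (bL f p e j U * (2 * p * U.card)) +
                bL f p e j U * (2 * ((n : ℝ) + 1) ^ 2 * δ) := by
            intro U
            have h6 := mul_le_mul_of_nonneg_left (pair_mean hW2 hδ U)
              (mul_nonneg zero_le_two (bL_nonneg (f := f) (p := p) (e := e) j U))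
            refine h6.trans ?_
            by_cases hU : p * U.card ≤ e
            · have h7 : (p * U.card) ^ 2 ≤ e * (p * U.card) := by
                rw [sq]
                exact mul_le_mul_of_nonneg_right hU (by positivity)
              have h8 := mul_le_mul_of_nonneg_left h7
                (mul_nonneg zero_le_two (bL_nonneg (f := f) (p := p) (e := e) j U))
              linarith
            · have h7 : bL f p e j U = 0 := by
                unfold bL
                rw [if_neg hU]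
              rw [h7]
              linarith
          calc ∑ U, 2 * bL f p e j U *
              avg (fun ω => (∑ i ∈ U, xi (W ω) i) * ((∑ i ∈ U, xi (W ω) i) - 1))
              ≤ ∑ U, (e * (bL f p e j U * (2 * p * U.card)) +
                bL f p e j U * (2 * ((n : ℝ) + 1) ^ 2 * δ)) := sum_le_sum fun U _ => h5 U
            _ = e * (∑ U, bL f p e j U * (2 * p * U.card)) +
                (∑ U, bL f p e j U) * (2 * ((n : ℝ) + 1) ^ 2 * δ) := by
                rw [sum_add_distrib, ← mul_sum, ← sum_mul]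
            _ ≤ e * (∑ U, bL f p e j U * (2 * p * U.card)) +
                1 * (2 * ((n : ℝ) + 1) ^ 2 * δ) := by
                have := mul_le_mul_of_nonneg_right (bL_sum h hj (p := p) (e := e))
                  (show 0 ≤ 2 * ((n : ℝ) + 1) ^ 2 * δ by positivity)
                linarith
            _ = _ := by rw [one_mul]
        refine (sum_le_sum h4).trans ?_
        rw [sum_add_distrib, ← mul_sum, ← lq_eq, ← hQ, sum_const, nsmul_eq_mul]
        have h5 : (J.card : ℝ) ≤ (n : ℝ) + 1 := by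
          have h6 : J.card ≤ n := by simpa using card_le_univ J
          have h7 : (J.card : ℝ) ≤ n := by exact_mod_cast h6
          linarith
        have h6 : (J.card : ℝ) * (2 * ((n : ℝ) + 1) ^ 2 * δ) ≤
            ((n : ℝ) + 1) * (2 * ((n : ℝ) + 1) ^ 2 * δ) :=
          mul_le_mul_of_nonneg_right h5 (by positivity)
        nlinarith [h6]
      refine h1.trans ?_
      rw [div_le_iff₀ (by positivity)]
      refine h2.trans ?_
      have h5 : 1 / 3 ≤ Q := by linarith
      have h7 : 0 ≤ ((n : ℝ) + 1) ^ 3 * δ := by positivity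
      nlinarith [mul_le_mul_of_nonneg_right h5 h7]
    have hsum : (avg fun ω => one (Lo J f (W ω) < e / 12 * L)) ≤
        (avg fun ω => one ((Q / 2) ^ 2 < (X1 ω - Q) ^ 2)) + avg fun ω => one (Q / 4 < X2 ω) := by
      rw [← avg_add]
      refine avg_mono fun ω => ?_
      have ha := Dnf.one_nonneg ((Q / 2) ^ 2 < (X1 ω - Q) ^ 2)
      have hb := Dnf.one_nonneg (Q / 4 < X2 ω)
      by_cases h1 : Lo J f (W ω) < e / 12 * L
      · rw [Dnf.one_true h1]
        by_cases h2 : Q / 4 < X2 ω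
        · rw [Dnf.one_true h2]
          linarith
        · have h3 := hlow ω
          have h4 : X1 ω < Q / 2 := by
            by_contra hcon
            push Not at hcon h2
            linarith
          have h5 : (Q / 2) ^ 2 < (X1 ω - Q) ^ 2 := by nlinarith
          rw [Dnf.one_true h5]
          linarith
      · rw [Dnf.one_false h1]
        linarith
    have h1 : 24 / L ≤ 100 / (e ^ 2 * L) := by
      rw [div_le_div_iff₀ hL0 (by positivity)]
      have he2 : e ^ 2 ≤ 1 := by nlinarith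
      nlinarith [mul_le_mul_of_nonneg_right he2 hL0.le]
    have h2 : 252 * ((n : ℝ) + 1) ^ 2 * δ ≤ 252 * ((n : ℝ) + 1) ^ 3 * δ := by
      have h3 : ((n : ℝ) + 1) ^ 2 ≤ ((n : ℝ) + 1) ^ 3 :=
        pow_le_pow_right₀ (by linarith) (by norm_num)
      nlinarith [mul_le_mul_of_nonneg_right h3 hδ]
    have h3 : 0 ≤ ((n : ℝ) + 1) ^ 3 * δ := by positivity
    linarith
  · -- the heavy part
    have c2 : L / 3 ≤ Lh := by
      push Not at c0 c1
      linarith
    set H := lh J f p e with hH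
    have hHL : L / 3 ≤ H := c2.trans (lh_ge hp hp1)
    have hH0 : 0 < H := by linarith
    set X3 : Ω → ℝ := fun ω => ∑ j ∈ J, ∑ U, bH f p e j U *
      (cc U (W ω) - (1 - 2 * p) ^ U.card) with hX3
    have h1 := heavy hp hp1 h0 hW J I h.dj (bH f p e) (fun j _ U => bH_nonneg j U)
      (fun j hj => bH_sum h hj) fun j hj U hU => bH_on h hj hU
    have h2 : avg (fun ω => X3 ω ^ 2) ≤ 3 * ε₀ * H ^ 2 + 4 * H := h1
    have hlow : ∀ ω, e * H - X3 ω ≤ Lo J f (W ω) := by
      intro ω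
      have h3 : ∑ j ∈ J, ∑ U, bH f p e j U * (1 - cc U (W ω)) = Lh - X3 ω := by
        rw [hLh, hX3]
        simp only
        rw [← sum_sub_distrib]
        refine sum_congr rfl fun j _ => ?_
        rw [← sum_sub_distrib]
        exact sum_congr rfl fun U _ => by ring
      rw [hlo ω, h3]
      have := hlight ω
      have h4 : e * H ≤ Lh := lh_le hp hp1 he he1
      linarith
    have hsum : (avg fun ω => one (Lo J f (W ω) < e / 12 * L)) ≤
        avg fun ω => one ((e * H / 2) ^ 2 < X3 ω ^ 2) := by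
      refine avg_mono fun ω => ?_
      by_cases h3 : Lo J f (W ω) < e / 12 * L
      · have h4 := hlow ω
        have h5 : e * H / 2 < X3 ω := by nlinarith
        have h6 : 0 < e * H / 2 := by positivity
        have h7 : (e * H / 2) ^ 2 < X3 ω ^ 2 := by nlinarith
        rw [Dnf.one_true h7]
        exact Dnf.one_le _
      · rw [Dnf.one_false h3]
        exact Dnf.one_nonneg _
    have h3 := markov (F := fun ω => X3 ω ^ 2) (G := fun ω => X3 ω ^ 2)
      (a := (e * H / 2) ^ 2) (by positivity) (fun ω => sq_nonneg _) fun ω hω => hω.le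
    have h4 : avg (fun ω => X3 ω ^ 2) / (e * H / 2) ^ 2 ≤
        12 * ε₀ / e ^ 2 + 48 / (e ^ 2 * L) := by
      rw [div_le_iff₀ (by positivity)]
      refine h2.trans ?_
      have h5 : (12 * ε₀ / e ^ 2 + 48 / (e ^ 2 * L)) * (e * H / 2) ^ 2 =
          3 * ε₀ * H ^ 2 + 12 * H ^ 2 / L := by
        field_simp
        ring
      rw [h5]
      have h6 : 4 * H ≤ 12 * H ^ 2 / L := by
        rw [le_div_iff₀ hL0]
        nlinarith
      linarith
    have h5 : 48 / (e ^ 2 * L) ≤ 100 / (e ^ 2 * L) :=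
      div_le_div_of_nonneg_right (by norm_num) (by positivity)
    have h6 := hsum.trans (h3.trans h4)
    linarith

theorem loss_mean {N : ℕ} {J : Finset (Fin n)} {I : Fin n → Finset (Fin n)}
    {f : Fin n → Cube n → ℂ} (h : Bln N J I f) {p e δ : ℝ} (hp : 0 ≤ p) (hp1 : p ≤ 1 / 2)
    (he : 0 < e) (he1 : e ≤ 1 / 2) (hδ : 0 ≤ δ) {Ω : Type} [Fintype Ω] [Nonempty Ω]
    {W : Ω → Cube n} (hW2 : Dis2 p δ W) :
    (avg fun ω => Lo J f (W ω)) ≤ 2 / e * Ls J f p + n * δ := by
  classical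
  have hls := ls_split J f p e
  have hl0 := l0_nonneg h
  set Ll := ∑ j ∈ J, ∑ U, bL f p e j U * (1 - (1 - 2 * p) ^ U.card) with hLl
  set Lh := ∑ j ∈ J, ∑ U, bH f p e j U * (1 - (1 - 2 * p) ^ U.card) with hLh
  have hLl0 : 0 ≤ Ll := sum_nonneg fun j _ => sum_nonneg fun U _ => mul_nonneg (bL_nonneg j U)
    (by linarith [pow_le_one' hp hp1 U.card])
  have hLh0 : 0 ≤ Lh := sum_nonneg fun j _ => sum_nonneg fun U _ => mul_nonneg (bH_nonneg j U)
    (by linarith [pow_le_one' hp hp1 U.card])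
  have h1 : (avg fun ω => Lo J f (W ω)) ≤
      avg fun ω => (l0 J f + 2 * lh J f p e) + 2 * ∑ i, lc J f p e i * xi (W ω) i := by
    refine avg_mono fun ω => ?_
    rw [lo_split J f p e (W ω)]
    have h2 : ∑ j ∈ J, ∑ U, bL f p e j U * (1 - cc U (W ω)) ≤
        2 * ∑ i, lc J f p e i * xi (W ω) i := by
      rw [← lc_form, mul_sum]
      refine sum_le_sum fun j _ => ?_
      rw [mul_sum]
      refine sum_le_sum fun U _ => ?_
      have h3 := mul_le_mul_of_nonneg_left (cc_high U (W ω))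
        (bL_nonneg (f := f) (p := p) (e := e) j U)
      linarith
    have h3 : ∑ j ∈ J, ∑ U, bH f p e j U * (1 - cc U (W ω)) ≤ 2 * lh J f p e := by
      unfold lh
      rw [mul_sum]
      refine sum_le_sum fun j _ => ?_
      rw [mul_sum]
      refine sum_le_sum fun U _ => ?_
      have h4 := mul_le_mul_of_nonneg_left (one_sub_cc_le U (W ω))
        (bH_nonneg (f := f) (p := p) (e := e) j U)
      linarith
    linarith
  rw [avg_add, avg_const] at h1
  have h2 := (abs_le.1 (lin_mean hW2 hδ (lc J f p e) lc_nonneg (lc_le h))).2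
  have h3 : (avg fun ω => 2 * ∑ i, lc J f p e i * xi (W ω) i) ≤ lq J f p e + n * δ := by
    unfold lq
    linarith
  have h4 := lq_le (J := J) (f := f) hp hp1 he1
  rw [← hLl] at h4
  have h5 := lh_le (J := J) (f := f) hp hp1 he he1
  rw [← hLh] at h5
  have h6 : lh J f p e ≤ Lh / e := by
    rw [le_div_iff₀ he]
    linarith
  have h7 : 2 ≤ 2 / e := by
    rw [le_div_iff₀ he]
    linarith
  have h8 : 2 * (Lh / e) = 2 / e * Lh := by ring
  rw [hls]
  have h9 : l0 J f + 2 * Ll ≤ 2 / e * (l0 J f + Ll) := by nlinarith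
  have h10 : 2 / e * (l0 J f + Ll + Lh) = 2 / e * (l0 J f + Ll) + 2 / e * Lh := by ring
  rw [h10]
  linarith

end Pool.Agent.MP_ca1109_lc.Pn
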