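import Pool.Agent.MP_ca1109_lc.Pn.Defs
import Pool.Agent.MP_ca1109_lc.Pt.LV

/-!
# Row LV: the loss as a function of the density (blocks of any length)
-/

namespace Pool.Agent.MP_ca1109_lc.Pn

open Finset Pool.Agent.H66 Pool.Agent.MP_ca1109_lc.Mpg Pool.Agent.MP_ca1109_lc.Agp
  Pool.Agent.MP_ca1109_lc.Xp Pool.Agent.MP_ca1109_lc.Pt
open Pool.Agent.MP_ca1109_lc.Dnf (Cube ch one On)

variable {n : ℕ}

variable {N : ℕ} {J : Finset (Fin n)} {I : Fin n → Finset (Fin n)} {f : Fin n → Cube n → ℂ}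

theorem Ls_mono (h : Bln N J I f) {p q : ℝ} (hp : 0 ≤ p) (hpq : p ≤ q) (hq : q ≤ 1 / 2) :
    Ls J f p ≤ Ls J f q := by
  refine sum_le_sum fun j _ => sub_le_sub_left (sum_le_sum fun U _ => ?_) 1
  exact mul_le_mul_of_nonneg_left (pow_le_pow_left₀ (by linarith) (by linarith) _)
    (cb_nonneg (f j) U)

theorem Ls_scale (h : Bln N J I f) {p θ : ℝ} (hp : 0 ≤ p) (hp1 : p ≤ 1 / 2) (hθ : 0 ≤ θ)
    (hθ1 : θ ≤ 1) : θ * Ls J f p ≤ Ls J f (θ * p) := by
  unfold Ls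
  rw [mul_sum]
  refine sum_le_sum fun j hj => ?_
  have h1 : ∀ k : ℕ, (1 - 2 * (θ * p)) ^ k ≤ (1 - θ) + θ * (1 - 2 * p) ^ k := by
    intro k
    have h := (convexOn_pow k).2 (show (1 : ℝ) ∈ Set.Ici 0 by simp)
      (show (1 - 2 * p) ∈ Set.Ici (0 : ℝ) by simp only [Set.mem_Ici]; linarith)
      (show 0 ≤ 1 - θ by linarith) hθ (by ring)
    simp only [smul_eq_mul, one_pow, mul_one] at h
    refine le_trans (le_of_eq ?_) h
    congr 1
    ring
  have h2 : ∑ U, cb (f j) U * (1 - 2 * (θ * p)) ^ U.card ≤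
      (1 - θ) * ∑ U, cb (f j) U + θ * ∑ U, cb (f j) U * (1 - 2 * p) ^ U.card := by
    rw [mul_sum, mul_sum, ← sum_add_distrib]
    refine sum_le_sum fun U _ => ?_
    have h3 := mul_le_mul_of_nonneg_left (h1 U.card) (cb_nonneg (f j) U)
    linarith
  have h4 : (1 - θ) * ∑ U, cb (f j) U ≤ 1 - θ :=
    mul_le_of_le_one_right (by linarith) (cb_sum (f j) (h.le j hj))
  linarith

/-- The total weight of the degrees. -/
theorem cb_wt (h : Bln N J I f) : ∑ j ∈ J, ∑ U, cb (f j) U * (U.card : ℝ) ≤ n := by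
  classical
  have h1 : ∀ j ∈ J, ∑ U, cb (f j) U * (U.card : ℝ) ≤ (I j).card := by
    intro j hj
    calc ∑ U, cb (f j) U * (U.card : ℝ) ≤ ∑ U, cb (f j) U * ((I j).card : ℝ) := by
          refine sum_le_sum fun U _ => ?_
          by_cases hU : U ⊆ I j
          · exact mul_le_mul_of_nonneg_left (by exact_mod_cast card_le_card hU) (cb_nonneg _ _)
          · rw [cb_on (h.on j hj) hU, zero_mul, zero_mul]
      _ = (∑ U, cb (f j) U) * ((I j).card : ℝ) := by rw [sum_mul]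
      _ ≤ 1 * ((I j).card : ℝ) :=
          mul_le_mul_of_nonneg_right (cb_sum (f j) (h.le j hj)) (by positivity)
      _ = _ := one_mul _
  refine (sum_le_sum h1).trans ?_
  have h2 : (J.biUnion I).card = ∑ j ∈ J, (I j).card :=
    card_biUnion fun j hj k hk hjk => h.dj j hj k hk hjk
  have h3 : (J.biUnion I).card ≤ n := by
    have := card_le_univ (J.biUnion I)
    simpa using this
  have h4 : ((∑ j ∈ J, (I j).card : ℕ) : ℝ) ≤ n := by
    rw [← h2]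
    exact_mod_cast h3
  push_cast at h4
  exact h4

theorem Ls_small (h : Bln N J I f) {p : ℝ} (hp : 0 ≤ p) (hp1 : p ≤ 1 / 2) :
    Ls J f p ≤ Ls J f 0 + 2 * p * n := by
  have h1 : Ls J f p ≤ Ls J f 0 + 2 * p * ∑ j ∈ J, ∑ U, cb (f j) U * (U.card : ℝ) := by
    unfold Ls
    rw [mul_sum, ← sum_add_distrib]
    refine sum_le_sum fun j _ => ?_
    rw [mul_sum]
    have h2 : ∑ U, cb (f j) U * (1 - 2 * 0) ^ U.card ≤
        ∑ U, cb (f j) U * (1 - 2 * p) ^ U.card + ∑ U, 2 * p * (cb (f j) U * (U.card : ℝ)) := by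
      rw [← sum_add_distrib]
      refine sum_le_sum fun U _ => ?_
      have h3 := one_add_mul_le_pow (a := -(2 * p)) (by linarith) U.card
      rw [mul_zero, sub_zero, one_pow, mul_one]
      have h4 := mul_le_mul_of_nonneg_left h3 (cb_nonneg (f j) U)
      have h5 : (1 + -(2 * p)) = 1 - 2 * p := by ring
      rw [h5] at h4
      linarith
    linarith
  refine h1.trans ?_
  have := mul_le_mul_of_nonneg_left (cb_wt h) (show 0 ≤ 2 * p by linarith)
  linarith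

theorem Ls_level (h : Bln N J I f) {C : ℝ} (hC : 2 ≤ C) (h0 : Ls J f 0 ≤ C)
    (h1 : 2 * C < Ls J f (1 / 2)) : ∃ l : ℕ, 2 ≤ l ∧ l ≤ Nat.clog 2 n ∧
      C ≤ Ls J f ((1 / 2) ^ l) ∧ Ls J f ((1 / 2) ^ l) ≤ 2 * C := by
  classical
  have hpl : ∀ l : ℕ, (0 : ℝ) < (1 / 2) ^ l := fun l => by positivity
  have hple : ∀ l : ℕ, 1 ≤ l → ((1 : ℝ) / 2) ^ l ≤ 1 / 2 := fun l hl => by
    calc ((1 : ℝ) / 2) ^ l ≤ (1 / 2) ^ 1 :=
          pow_le_pow_of_le_one (by norm_num) (by norm_num) hl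
      _ = 1 / 2 := pow_one _
  -- `n ≥ 2`
  have hn : 2 ≤ n := by
    by_contra hcon
    have h2 := Ls_small h (p := 1 / 2) (by norm_num) le_rfl
    have h3 : (n : ℝ) ≤ 1 := by exact_mod_cast (show n ≤ 1 by omega)
    linarith
  have hL1 : 1 ≤ Nat.clog 2 n := Nat.clog_pos (by norm_num) hn
  have hlast : Ls J f ((1 / 2) ^ (Nat.clog 2 n)) ≤ 2 * C := by
    have h3 := Ls_small h (hpl (Nat.clog 2 n)).le (hple _ hL1)
    have h4 : ((1 : ℝ) / 2) ^ (Nat.clog 2 n) * n ≤ 1 := by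
      have h5 : (n : ℝ) ≤ 2 ^ (Nat.clog 2 n) := by
        exact_mod_cast Nat.le_pow_clog (by norm_num) n
      calc ((1 : ℝ) / 2) ^ (Nat.clog 2 n) * n ≤ (1 / 2) ^ (Nat.clog 2 n) * 2 ^ (Nat.clog 2 n) :=
            mul_le_mul_of_nonneg_left h5 (hpl _).le
        _ = 1 := by rw [← mul_pow]; norm_num
    linarith
  have hex : ∃ l, Ls J f ((1 / 2) ^ l) ≤ 2 * C ∧ 1 ≤ l := ⟨Nat.clog 2 n, hlast, hL1⟩
  have hl : Ls J f ((1 / 2) ^ (Nat.find hex)) ≤ 2 * C ∧ 1 ≤ Nat.find hex := Nat.find_spec hex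
  have hl1 : Nat.find hex ≤ Nat.clog 2 n := Nat.find_min' hex ⟨hlast, hL1⟩
  have hl2 : 2 ≤ Nat.find hex := by
    by_contra hcon
    have h2 : Nat.find hex = 1 := by omega
    rw [h2, pow_one] at hl
    linarith [hl.1]
  refine ⟨Nat.find hex, hl2, hl1, ?_, hl.1⟩
  have h2 : 2 * C < Ls J f ((1 / 2) ^ (Nat.find hex - 1)) := by
    have h3 := Nat.find_min hex (show Nat.find hex - 1 < Nat.find hex by omega)
    by_contra hcon
    exact h3 ⟨not_lt.1 hcon, by omega⟩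
  have h4 := Ls_scale h (θ := 1 / 2) (hpl (Nat.find hex - 1)).le (hple _ (by omega))
    (by norm_num) (by norm_num)
  have h5 : (1 / 2 : ℝ) * (1 / 2) ^ (Nat.find hex - 1) = (1 / 2) ^ (Nat.find hex) := by
    rw [← pow_succ']
    congr 1
    omega
  rw [h5] at h4
  linarith

end Pool.Agent.MP_ca1109_lc.Pn
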