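import Pool.Agent.MP_ca1109_lc.Pn.Defs
import Pool.Agent.MP_ca1109_lc.Pt.UN

/-! Row UN of PN: the uniform distribution, blocks of any length. -/

namespace Pool.Agent.MP_ca1109_lc.Pn

open Finset Pool.Agent.H66 Pool.Agent.MP_ca1109_lc.Mpg Pool.Agent.MP_ca1109_lc.Agp
  Pool.Agent.MP_ca1109_lc.Xp Pool.Agent.MP_ca1109_lc.Pt
open Pool.Agent.MP_ca1109_lc.Dnf (Cube ch one On)

variable {n : ℕ} {N : ℕ} {J : Finset (Fin n)} {I : Fin n → Finset (Fin n)}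
  {f : Fin n → Cube n → ℂ}

theorem unif_small (h : Bln N J I f) :
    ‖av fun x => ∏ j ∈ J, f j x‖ ≤ Real.exp (-(Ls J f (1 / 2)) / 4) := by
  rw [av_prod h.dj f h.on, norm_prod]
  have h1 : Real.exp (-(Ls J f (1 / 2)) / 4) =
      ∏ j ∈ J, Real.exp (-(1 - ∑ S, (‖co (f j) S‖ ^ 2) ^ 2) / 4) := by
    rw [← Real.exp_sum, Ls_half]
    congr 1
    rw [← Finset.sum_div, ← Finset.sum_neg_distrib]
  rw [h1]
  refine prod_le_prod (fun j _ => norm_nonneg _) fun j _ => un_four ?_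
  have h2 : (‖co (f j) ∅‖ ^ 2) ^ 2 ≤ ∑ S, (‖co (f j) S‖ ^ 2) ^ 2 :=
    single_le_sum (f := fun S => (‖co (f j) S‖ ^ 2) ^ 2) (fun S _ => by positivity) (mem_univ ∅)
  rw [co_empty] at h2
  calc ‖av (f j)‖ ^ 4 = (‖av (f j)‖ ^ 2) ^ 2 := by ring
    _ ≤ _ := h2

theorem au_prod (h : Bln N J I f) (W : Cube n) :
    ‖av fun y => ∏ j ∈ J, dr (f j) W y‖ ≤ Real.exp (-(Lo J f W) / 2) := by
  rw [av_prod h.dj (fun j => dr (f j) W) fun j hj => dr_on (h.on j hj) W, norm_prod]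
  have h1 : Real.exp (-(Lo J f W) / 2) = ∏ j ∈ J, Real.exp (-(1 - ‖au (f j) W‖ ^ 2) / 2) := by
    rw [← Real.exp_sum]
    congr 1
    rw [Lo, ← Finset.sum_div, ← Finset.sum_neg_distrib]
  rw [h1]
  exact prod_le_prod (fun j _ => norm_nonneg _) fun j _ => un_two

theorem Lo_ge (h : Bln N J I f) (W : Cube n) :
    ∑ j ∈ J, (1 - ‖av (dr (f j) W)‖) ≤ Lo J f W := by
  refine sum_le_sum fun j hj => ?_
  have h1 : ‖au (f j) W‖ ≤ 1 := au_le (f j) (h.le j hj) W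
  have h2 : ‖au (f j) W‖ ^ 2 ≤ ‖au (f j) W‖ := by
    nlinarith [norm_nonneg (au (f j) W)]
  change 1 - ‖au (f j) W‖ ≤ _
  linarith

theorem Lo_nonneg (h : Bln N J I f) (W : Cube n) : 0 ≤ Lo J f W := by
  refine sum_nonneg fun j hj => ?_
  have h1 : ‖au (f j) W‖ ≤ 1 := au_le (f j) (h.le j hj) W
  have h2 : ‖au (f j) W‖ ^ 2 ≤ 1 := by
    nlinarith [norm_nonneg (au (f j) W)]
  linarith

end Pool.Agent.MP_ca1109_lc.Pn
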