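import Pool.Agent.MP_ca1109_lc.Pt.EX

/-!
# Product tests over disjoint blocks of any length: definitions

* `Bln N J I f`: the functions `f j`, `j ∈ J`, are bounded by one, depend on the disjoint blocks `I j`
  (of any length) and have Walsh norm at most `N`.
* `Dist p ε W`: the parities of ALL sets under the random string `W` are those of a string of
  density `p`, up to `ε`.
* `Dis2 p δ W`: the same for sets of at most two elements.
-/

namespace Pool.Agent.MP_ca1109_lc.Pn

open Finset Pool.Agent.H66 Pool.Agent.MP_ca1109_lc.Mpg Pool.Agent.MP_ca1109_lc.Agp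
  Pool.Agent.MP_ca1109_lc.Xp Pool.Agent.MP_ca1109_lc.Pt
open Pool.Agent.MP_ca1109_lc.Dnf (Cube ch one On)

variable {n : ℕ}

/-- The functions `f j` are bounded by one, depend on disjoint blocks `I j` and have Walsh norm at
most `N`. -/
structure Bln (N : ℕ) (J : Finset (Fin n)) (I : Fin n → Finset (Fin n))
    (f : Fin n → Cube n → ℂ) : Prop where
  pos : 1 ≤ N
  dj : ∀ i ∈ J, ∀ j ∈ J, i ≠ j → Disjoint (I i) (I j)
  on : ∀ j ∈ J, On (I j) (f j)
  le : ∀ j ∈ J, ∀ x, ‖f j x‖ ≤ 1
  sp : ∀ j ∈ J, Sp (N : ℝ) (f j)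

/-- The parities of all sets are those of a string of density `p`, up to `ε`. -/
def Dist (p ε : ℝ) {Ω : Type} [Fintype Ω] (W : Ω → Cube n) : Prop :=
  ∀ U : Finset (Fin n), |(avg fun ω => cc U (W ω)) - (1 - 2 * p) ^ U.card| ≤ ε

/-- The parities of sets of at most two elements are those of a string of density `p`, up to `δ`. -/
def Dis2 (p δ : ℝ) {Ω : Type} [Fintype Ω] (W : Ω → Cube n) : Prop :=
  ∀ U : Finset (Fin n), U.card ≤ 2 → |(avg fun ω => cc U (W ω)) - (1 - 2 * p) ^ U.card| ≤ δ

/-- The indicator of `W i = 1`. -/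
def xi (W : Cube n) (i : Fin n) : ℝ := if W i = true then 1 else 0

/-- The Walsh norm of a real function. -/
noncomputable def wn (f : Cube n → ℝ) : ℝ := ∑ S : Finset (Fin n), |avg fun x => f x * ch S x|

end Pool.Agent.MP_ca1109_lc.Pn
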