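import Pool.Agent.MP_ca1109_lc.Pt.MA

/-!
# The generator for product tests is biased as little as we like
-/

namespace Pool.Agent.MP_ca1109_lc.Pn

open Finset Pool.Agent.H66 Pool.Agent.MP_ca1109_lc.Mpg Pool.Agent.MP_ca1109_lc.Agp
  Pool.Agent.MP_ca1109_lc.Xp Pool.Agent.MP_ca1109_lc.Pt
open Pool.Agent.MP_ca1109_lc.Dnf (Cube ch one On)

variable {n : ℕ}

/-- The output of the generator is biased as little as its first string. -/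
theorem kb_bias {M L B : ℕ} {Ω₁ Ω₂ : Type} [Fintype Ω₁] [Nonempty Ω₁] [Fintype Ω₂] [Nonempty Ω₂]
    (hM : 0 < M) (G : ℕ → Cube n) (Y : Ω₁ → Cube n) (η : Fin L → Ω₂ → Finset (Fin n))
    (h : Ω₂ → Fin n → Fin B) {δ : ℝ} (hY : Bias δ Y)
    (hout : ∀ f : Cube n → ℂ, na M (fun p => f (G p)) = Ph Y η h f) :
    Bias δ fun ω : Fin M => G ω := by
  intro S hS
  have : Nonempty (Fin M) := ⟨⟨0, hM⟩⟩
  have h1 : ‖Ph Y η h (fun x => ((ch S x : ℝ) : ℂ)) - 0‖ ≤ δ := by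
    refine ph_const Y η h fun s => ?_
    rw [sub_zero, c0_av_ofReal, Complex.norm_real, Real.norm_eq_abs]
    exact (hY.xo s) S hS
  rw [sub_zero, ← hout, ← av_fin M (fun p => ((ch S (G p) : ℝ) : ℂ)), c0_av_ofReal,
    Complex.norm_real, Real.norm_eq_abs] at h1
  exact h1

/-- Theorem PT with the additional conclusion on the bias. -/
theorem main_prod_bias (c Kb : ℕ) {ε : ℝ} (hε : 0 < ε) : ∃ E G, NG E G ∧
    (∀ n : ℕ, Bias (1 / ((n : ℝ) + 1) ^ Kb) fun ω : Fin (2 ^ E n) => out G n ω) ∧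
    ∃ n₀ : ℕ, ∀ n ≥ n₀, ∀ (J : Finset (Fin n)) (I : Fin n → Finset (Fin n)) (f : Fin n → Cube n → ℂ),
      Blk (n ^ c) J I f →
      ‖na (2 ^ E n) (fun p => ∏ j ∈ J, f j (out G n p)) - av (fun x => ∏ j ∈ J, f j x)‖ ≤ ε := by
  classical
  obtain ⟨C₀, K₀, h0⟩ := case0 (show 0 < ε ^ 2 / 8 by positivity)
  obtain ⟨s, C₁, h2'⟩ := case2 (show 0 < ε ^ 2 / 8 by positivity)
  obtain ⟨C, hC⟩ : ∃ C : ℝ, C = C₀ + C₁ + 2 := ⟨_, rfl⟩
  have hC₀0 : (0 : ℝ) ≤ C₀ := Nat.cast_nonneg _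
  have hC₁0 : (0 : ℝ) ≤ C₁ := Nat.cast_nonneg _
  obtain ⟨K₂, h2⟩ := h2' C (by linarith)
  obtain ⟨K₁, h1⟩ := case1 (Lam := 2 * C) (show 0 < ε / 4 by positivity)
  obtain ⟨K', hK'⟩ : ∃ K' : ℕ, K' = K₀ + K₁ + K₂ := ⟨_, rfl⟩
  obtain ⟨K, hK⟩ : ∃ K : ℕ, K = (c + 1) * K' + 1 + Kb := ⟨_, rfl⟩
  obtain ⟨E, G, hG, hgen⟩ := xgenZ s K
  obtain ⟨n₀, hn₀⟩ := exists_nat_gt ((K' : ℝ) / (ε ^ 2 / 8) + (K' : ℝ) / (ε / 4))
  refine ⟨E, G, hG, fun n => ?_, n₀, fun n hn J I f hf => ?_⟩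
  · obtain ⟨M₁, M₂, hM₁, hM₂, Y, Z, hY, hZ, hout⟩ := hgen n
    have : Nonempty (Fin M₁) := ⟨⟨0, hM₁⟩⟩
    have : Nonempty (Fin M₂) := ⟨⟨0, hM₂⟩⟩
    have hn0 : (0 : ℝ) ≤ n := Nat.cast_nonneg n
    have h9 : Bias (1 / ((n : ℝ) + 1) ^ Kb) Y := Bias.mono hY (by
      refine one_div_le_one_div_of_le (by positivity) ?_
      exact pow_le_pow_right₀ (by linarith) (by omega))
    exact kb_bias (M := 2 ^ E n) (by positivity) (fun p => out G n p) Y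
      (fun l : Fin (Nat.clog 2 n + 1) => fun ω₂ => eta (Z ω₂) (l : ℕ)) (fun ω₂ => hsh (Z ω₂)) h9
      (fun f => hout f)
  have hnn : (n₀ : ℝ) ≤ n := by exact_mod_cast hn
  have hn0 : (0 : ℝ) ≤ n := Nat.cast_nonneg n
  have hK'0 : (0 : ℝ) ≤ K' := Nat.cast_nonneg _
  have g1 : (0 : ℝ) ≤ (K' : ℝ) / (ε ^ 2 / 8) := by positivity
  have g2 : (0 : ℝ) ≤ (K' : ℝ) / (ε / 4) := by positivity
  obtain ⟨δ, hδ⟩ : ∃ δ : ℝ, δ = 1 / ((n : ℝ) + 1) ^ K := ⟨_, rfl⟩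
  have hδ0 : 0 ≤ δ := by rw [hδ]; positivity
  have herr : ∀ K'' : ℕ, K'' ≤ K' → δ * bd K'' n (n ^ c) ≤ K' / ((n : ℝ) + 1) := by
    intro K'' h
    have e1 : (c + 1) * K'' + 1 ≤ K := by
      rw [hK]
      have := Nat.mul_le_mul_left (c + 1) h
      omega
    rw [hδ]
    refine (pma_err n c K'' K e1).trans ?_
    refine div_le_div_of_nonneg_right ?_ (by linarith)
    exact_mod_cast h
  have hs1 : (K' : ℝ) / ((n : ℝ) + 1) ≤ ε ^ 2 / 8 := by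
    have e1 : (K' : ℝ) / (ε ^ 2 / 8) ≤ (n : ℝ) + 1 := by linarith
    rw [div_le_iff₀ (by positivity)] at e1
    rw [div_le_iff₀ (by linarith)]
    linarith
  have hs2 : (K' : ℝ) / ((n : ℝ) + 1) ≤ ε / 4 := by
    have e1 : (K' : ℝ) / (ε / 4) ≤ (n : ℝ) + 1 := by linarith
    rw [div_le_iff₀ (by positivity)] at e1
    rw [div_le_iff₀ (by linarith)]
    linarith
  have hsq : ∀ a : ℝ, 0 ≤ a → a ^ 2 ≤ ε ^ 2 / 8 + ε ^ 2 / 8 → a ≤ ε / 2 := by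
    intro a _ h
    exact le_of_not_gt fun hlt => by nlinarith
  obtain ⟨M₁, M₂, hM₁, hM₂, Y, Z, hY, hZ, hout⟩ := hgen n
  have : Nonempty (Fin M₁) := ⟨⟨0, hM₁⟩⟩
  have : Nonempty (Fin M₂) := ⟨⟨0, hM₂⟩⟩
  rw [← hδ] at hY hZ
  have hU : Bias δ (fun x : Cube n => x) := Bias.mono Bias.unif hδ0
  have hout' : na (2 ^ E n) (fun p => ∏ j ∈ J, f j (out G n p)) =
      Ph Y (fun l : Fin (Nat.clog 2 n + 1) => fun ω₂ => eta (Z ω₂) (l : ℕ)) (fun ω₂ => hsh (Z ω₂))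
        (fun x => ∏ j ∈ J, f j x) := by
    have h3 := hout (fun x => ∏ j ∈ J, f j x)
    unfold Ph
    exact h3
  rw [hout']
  rcases le_or_gt C (Ls J f 0) with hA | hA
  · -- the second moments are small
    have hC₀C : (C₀ : ℝ) ≤ Ls J f 0 := by linarith
    have e1 : ∀ {Ω : Type} [Fintype Ω] [Nonempty Ω] (X : Ω → Cube n), Bias δ X →
        ‖av (fun ω => ∏ j ∈ J, f j (X ω))‖ ≤ ε / 2 := by
      intro Ω _ _ X hX
      refine hsq _ (norm_nonneg _) ?_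
      have := h0 n (n ^ c) J I f hf hC₀C X δ hδ0 hX
      have := herr K₀ (by omega)
      linarith
    have e2 : ‖Ph Y (fun l : Fin (Nat.clog 2 n + 1) => fun ω₂ => eta (Z ω₂) (l : ℕ))
        (fun ω₂ => hsh (Z ω₂)) (fun x => ∏ j ∈ J, f j x) - 0‖ ≤ ε / 2 := by
      refine ph_const Y _ _ fun t => ?_
      rw [sub_zero]
      exact e1 (fun ω => xo (Y ω) t) (hY.xo t)
    have e3 := e1 (fun x : Cube n => x) hU
    rw [sub_zero] at e2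
    exact (norm_sub_le _ _).trans (by linarith)
  rcases le_or_gt (Ls J f (1 / 2)) (2 * C) with hB | hB
  · -- bounded loss
    refine ph_const Y _ _ fun t => ?_
    have := h1 n (n ^ c) J I f hf hB (fun ω => xo (Y ω) t) δ hδ0 (hY.xo t)
    have := herr K₁ (by omega)
    linarith
  · -- the main case
    obtain ⟨l, hl2, hl, hl3, hl4⟩ := Ls_level hf (by linarith : 2 ≤ C) hA.le hB
    have hlt : l < Nat.clog 2 n + 1 := by omega
    have e1 : ∀ {Ω : Type} [Fintype Ω] [Nonempty Ω] (X : Ω → Cube n), Bias δ X →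
        ‖Ph X (fun l : Fin (Nat.clog 2 n + 1) => fun ω₂ => eta (Z ω₂) (l : ℕ))
          (fun ω₂ => hsh (Z ω₂)) (fun x => ∏ j ∈ J, f j x)‖ ≤ ε / 2 := by
      intro Ω _ _ X hX
      rw [ph_level X _ _ ⟨l, hlt⟩]
      refine pma_norm_av fun v => hsq _ (norm_nonneg _) ?_
      have := h2 n (n ^ c) J I f hf (Nat.clog 2 n + 1) l (by omega) (by omega) hl3 hl4 X Z
        (fun ω₂ => gx (fun _ => false) (fun l => eta (Z ω₂) (l : ℕ)) (hsh (Z ω₂))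
          (Function.update v ⟨l, hlt⟩ fun _ => false)) δ hδ0 hX hZ
      have := herr K₂ (by omega)
      linarith
    have e2 := e1 Y hY
    have e3 := e1 (fun x : Cube n => x) hU
    rw [ph_unif] at e3
    exact (norm_sub_le _ _).trans (by linarith)

theorem main_bias (c K : ℕ) {ε : ℝ} (hε : 0 < ε) : ∃ E G, NG E G ∧ ∃ n₀ : ℕ, ∀ n ≥ n₀,
    Bias (1 / ((n : ℝ) + 1) ^ K) (fun ω : Fin (2 ^ E n) => out G n ω) ∧
    ∀ (J : Finset (Fin n)) (I : Fin n → Finset (Fin n)) (f : Fin n → Cube n → ℂ),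
      Blk (n ^ c) J I f →
      ‖na (2 ^ E n) (fun p => ∏ j ∈ J, f j (out G n p)) - av (fun x => ∏ j ∈ J, f j x)‖ ≤ ε := by
  obtain ⟨E, G, hG, hb, n₀, h⟩ := main_prod_bias c K hε
  exact ⟨E, G, hG, n₀, fun n hn => ⟨hb n, fun J I f hf => h n hn J I f hf⟩⟩

end Pool.Agent.MP_ca1109_lc.Pn
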