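import Pool.Agent.MP_ca1109_lc.Pn.Defs

/-!
# The light characters
-/

namespace Pool.Agent.MP_ca1109_lc.Pn

open Finset Pool.Agent.H66 Pool.Agent.MP_ca1109_lc.Mpg Pool.Agent.MP_ca1109_lc.Agp
  Pool.Agent.MP_ca1109_lc.Xp Pool.Agent.MP_ca1109_lc.Pt
open Pool.Agent.MP_ca1109_lc.Dnf (Cube ch one On)

variable {n : ℕ}

theorem lt_xi (W : Cube n) (i : Fin n) : xi W i = 0 ∨ xi W i = 1 := by
  unfold xi
  split
  · exact Or.inr rfl
  · exact Or.inl rfl

theorem lt_cc (W : Cube n) (U : Finset (Fin n)) : cc U W = ∏ i ∈ U, (1 - 2 * xi W i) := by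
  unfold cc xi
  refine Finset.prod_congr rfl fun i _ => ?_
  split <;> norm_num

theorem lt_nat (W : Cube n) (U : Finset (Fin n)) :
    (∑ i ∈ U, xi W i) = ((U.filter fun i => W i = true).card : ℝ) := by
  unfold xi
  rw [Finset.sum_ite, Finset.sum_const_zero, add_zero, Finset.sum_const, nsmul_eq_mul, mul_one]

theorem lt_pow (W : Cube n) (U : Finset (Fin n)) :
    cc U W = (-1) ^ (U.filter fun i => W i = true).card := by
  unfold cc
  rw [Finset.prod_ite, Finset.prod_const_one, mul_one, Finset.prod_const]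

theorem cc_low (U : Finset (Fin n)) (W : Cube n) :
    2 * (∑ i ∈ U, xi W i) - 2 * (∑ i ∈ U, xi W i) * ((∑ i ∈ U, xi W i) - 1) ≤ 1 - cc U W := by
  rw [lt_nat, lt_pow]
  generalize (U.filter fun i => W i = true).card = m
  rcases m with _ | _ | m
  · simp
  · norm_num
  · have h1 : ((-1 : ℝ)) ^ (m + 2) ≤ 1 := by
      rcases neg_one_pow_eq_or ℝ (m + 2) with h | h <;> rw [h] <;> norm_num
    push_cast
    have h2 : (0 : ℝ) ≤ m := Nat.cast_nonneg m
    nlinarith [h1, h2]

theorem cc_high (U : Finset (Fin n)) (W : Cube n) : 1 - cc U W ≤ 2 * ∑ i ∈ U, xi W i := by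
  rw [lt_nat, lt_pow]
  generalize (U.filter fun i => W i = true).card = m
  rcases m with _ | m
  · simp
  · have h1 : (-1 : ℝ) ≤ (-1 : ℝ) ^ (m + 1) := by
      rcases neg_one_pow_eq_or ℝ (m + 1) with h | h <;> rw [h] <;> norm_num
    push_cast
    have h2 : (0 : ℝ) ≤ m := Nat.cast_nonneg m
    nlinarith [h1, h2]

section LT

variable {Ω : Type} [Fintype Ω] [Nonempty Ω] {W : Ω → Cube n} {p δ : ℝ}

theorem lt_one (hW : Dis2 p δ W) (i : Fin n) : |(avg fun ω => xi (W ω) i) - p| ≤ δ / 2 := by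
  have h1 := hW {i} (by simp)
  have h2 : (avg fun ω => cc {i} (W ω)) = 1 - 2 * avg fun ω => xi (W ω) i := by
    have : ∀ ω, cc {i} (W ω) = 1 - 2 * xi (W ω) i := fun ω => by rw [lt_cc]; simp
    simp only [this]
    rw [avg_sub, avg_const, avg_mul_left]
  rw [h2, card_singleton, pow_one] at h1
  have h3 : 1 - 2 * (avg fun ω => xi (W ω) i) - (1 - 2 * p) =
      -(2 * ((avg fun ω => xi (W ω) i) - p)) := by ring
  rw [h3, abs_neg, abs_mul, abs_two] at h1
  linarith

theorem lt_two (hW : Dis2 p δ W) {i j : Fin n} (hij : i ≠ j) :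
    |(avg fun ω => xi (W ω) i * xi (W ω) j) - p ^ 2| ≤ 3 / 4 * δ := by
  have h1 := hW {i, j} (card_le_two)
  have h2 : (avg fun ω => xi (W ω) i * xi (W ω) j) =
      1 / 4 * (avg fun ω => cc {i, j} (W ω)) - 1 / 4 + 1 / 2 * (avg fun ω => xi (W ω) i) +
        1 / 2 * (avg fun ω => xi (W ω) j) := by
    have : ∀ ω, xi (W ω) i * xi (W ω) j = 1 / 4 * cc {i, j} (W ω) - 1 / 4 + 1 / 2 * xi (W ω) i +
        1 / 2 * xi (W ω) j := fun ω => by
      rw [lt_cc, prod_pair hij]; ring
    simp only [this]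
    rw [avg_add, avg_add, avg_sub, avg_const, avg_mul_left, avg_mul_left, avg_mul_left]
  rw [h2]
  rw [card_pair hij] at h1
  have h3 := lt_one hW i
  have h4 := lt_one hW j
  rw [abs_le] at h1 h3 h4 ⊢
  constructor <;> nlinarith [h1.1, h1.2, h3.1, h3.2, h4.1, h4.2]

/-- The linear form: mean. -/
theorem lin_mean (hW : Dis2 p δ W) (hδ : 0 ≤ δ) (c : Fin n → ℝ) (h0 : ∀ i, 0 ≤ c i)
    (h1 : ∀ i, c i ≤ 1) :
    |(avg fun ω => 2 * ∑ i, c i * xi (W ω) i) - 2 * p * ∑ i, c i| ≤ n * δ := by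
  rw [avg_mul_left, avg_sum]
  simp only [avg_mul_left]
  have h2 : 2 * (∑ i, c i * avg fun ω => xi (W ω) i) - 2 * p * ∑ i, c i =
      ∑ i, 2 * c i * ((avg fun ω => xi (W ω) i) - p) := by
    rw [mul_sum, mul_sum, ← sum_sub_distrib]
    exact sum_congr rfl fun i _ => by ring
  rw [h2]
  refine (abs_sum_le_sum_abs _ _).trans ?_
  have h3 : ∀ i ∈ (univ : Finset (Fin n)), |2 * c i * ((avg fun ω => xi (W ω) i) - p)| ≤ δ := by
    intro i _
    rw [abs_mul, abs_of_nonneg (by linarith [h0 i] : 0 ≤ 2 * c i)]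
    have := lt_one hW i
    calc 2 * c i * |(avg fun ω => xi (W ω) i) - p| ≤ 2 * 1 * (δ / 2) :=
          mul_le_mul (by linarith [h1 i]) this (abs_nonneg _) (by norm_num)
      _ = δ := by ring
  refine (sum_le_sum h3).trans ?_
  simp

/-- The linear form: variance. -/
theorem lin_var (hW : Dis2 p δ W) (hδ : 0 ≤ δ) (hp : 0 ≤ p) (hp1 : p ≤ 1 / 2) (c : Fin n → ℝ)
    (h0 : ∀ i, 0 ≤ c i) (h1 : ∀ i, c i ≤ 1) :
    (avg fun ω => (2 * (∑ i, c i * xi (W ω) i) - 2 * p * ∑ i, c i) ^ 2) ≤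
      2 * (2 * p * ∑ i, c i) + 7 * ((n : ℝ) + 1) ^ 2 * δ := by
  have h2 : ∀ ω, (2 * (∑ i, c i * xi (W ω) i) - 2 * p * ∑ i, c i) ^ 2 =
      ∑ i, ∑ j, 4 * c i * c j * ((xi (W ω) i - p) * (xi (W ω) j - p)) := by
    intro ω
    have : 2 * (∑ i, c i * xi (W ω) i) - 2 * p * ∑ i, c i =
        ∑ i, 2 * c i * (xi (W ω) i - p) := by
      rw [mul_sum, mul_sum, ← sum_sub_distrib]
      exact sum_congr rfl fun i _ => by ring
    rw [this, sq, sum_mul_sum]
    exact sum_congr rfl fun i _ => sum_congr rfl fun j _ => by ring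
  simp only [h2]
  rw [avg_sum]
  have h3 : ∀ i ∈ (univ : Finset (Fin n)),
      (avg fun ω => ∑ j, 4 * c i * c j * ((xi (W ω) i - p) * (xi (W ω) j - p))) ≤
        4 * p * c i + 2 * δ + ∑ _j : Fin n, 5 * δ := by
    intro i _
    rw [avg_sum]
    simp only [avg_mul_left]
    have hb : ∀ j ∈ (univ : Finset (Fin n)),
        4 * c i * c j * (avg fun ω => (xi (W ω) i - p) * (xi (W ω) j - p)) ≤
          5 * δ + if j = i then 4 * p * c i + 2 * δ else 0 := by
      intro j _
      have hc0 : 0 ≤ c i * c j := mul_nonneg (h0 i) (h0 j)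
      have hc1 : c i * c j ≤ 1 := by
        calc c i * c j ≤ 1 * 1 := mul_le_mul (h1 i) (h1 j) (h0 j) (by norm_num)
          _ = 1 := by norm_num
      by_cases hij : j = i
      · subst hij
        rw [if_pos rfl]
        have e1 : (avg fun ω => (xi (W ω) j - p) * (xi (W ω) j - p)) =
            (1 - 2 * p) * (avg fun ω => xi (W ω) j) + p ^ 2 := by
          have : ∀ ω, (xi (W ω) j - p) * (xi (W ω) j - p) = (1 - 2 * p) * xi (W ω) j + p ^ 2 := by
            intro ω
            rcases lt_xi (W ω) j with h | h <;> rw [h] <;> ring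
          simp only [this]
          rw [avg_add, avg_const, avg_mul_left]
        rw [e1]
        have e2 := lt_one hW j
        rw [abs_le] at e2
        have e3 : (1 - 2 * p) * (avg fun ω => xi (W ω) j) + p ^ 2 ≤ p + δ / 2 := by
          nlinarith [e2.2, mul_nonneg (by linarith : (0 : ℝ) ≤ 1 - 2 * p)
            (by linarith [e2.2] : 0 ≤ p + δ / 2 - avg fun ω => xi (W ω) j)]
        have e4 : 0 ≤ p + δ / 2 := by positivity
        calc 4 * c j * c j * ((1 - 2 * p) * (avg fun ω => xi (W ω) j) + p ^ 2)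
            ≤ 4 * c j * c j * (p + δ / 2) :=
              mul_le_mul_of_nonneg_left e3 (by nlinarith [h0 j])
          _ = 4 * (c j * c j) * p + 2 * (c j * c j) * δ := by ring
          _ ≤ 4 * c j * p + 2 * 1 * δ := by
              have : c j * c j ≤ c j := by nlinarith [h0 j, h1 j]
              nlinarith [mul_nonneg hp (sub_nonneg.mpr this), mul_nonneg hδ (sub_nonneg.mpr hc1)]
          _ ≤ 5 * δ + (4 * p * c j + 2 * δ) := by linarith
      · rw [if_neg hij, add_zero]
        have e1 : (avg fun ω => (xi (W ω) i - p) * (xi (W ω) j - p)) =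
            (avg fun ω => xi (W ω) i * xi (W ω) j) - p * (avg fun ω => xi (W ω) i) -
              p * (avg fun ω => xi (W ω) j) + p ^ 2 := by
          have : ∀ ω, (xi (W ω) i - p) * (xi (W ω) j - p) = xi (W ω) i * xi (W ω) j -
              p * xi (W ω) i - p * xi (W ω) j + p ^ 2 := fun ω => by ring
          simp only [this]
          rw [avg_add, avg_sub, avg_sub, avg_const, avg_mul_left, avg_mul_left]
        rw [e1]
        have e2 := lt_two hW (Ne.symm hij)
        have e3 := lt_one hW i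
        have e4 := lt_one hW j
        rw [abs_le] at e2 e3 e4
        have e5 : (avg fun ω => xi (W ω) i * xi (W ω) j) - p * (avg fun ω => xi (W ω) i) -
              p * (avg fun ω => xi (W ω) j) + p ^ 2 ≤ 5 / 4 * δ := by
          nlinarith [e2.2, mul_nonneg hp (by linarith [e3.1] : 0 ≤ (avg fun ω => xi (W ω) i) - p + δ / 2),
            mul_nonneg hp (by linarith [e4.1] : 0 ≤ (avg fun ω => xi (W ω) j) - p + δ / 2),
            mul_nonneg hδ (by linarith : (0 : ℝ) ≤ 1 / 2 - p)]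
        calc 4 * c i * c j * ((avg fun ω => xi (W ω) i * xi (W ω) j) -
              p * (avg fun ω => xi (W ω) i) - p * (avg fun ω => xi (W ω) j) + p ^ 2)
            ≤ 4 * c i * c j * (5 / 4 * δ) :=
              mul_le_mul_of_nonneg_left e5 (by nlinarith)
          _ = c i * c j * (5 * δ) := by ring
          _ ≤ 1 * (5 * δ) := mul_le_mul_of_nonneg_right hc1 (by positivity)
          _ = 5 * δ := by ring
    refine (sum_le_sum hb).trans ?_
    rw [sum_add_distrib, sum_ite_eq' univ i, if_pos (mem_univ i)]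
    linarith
  refine (sum_le_sum h3).trans ?_
  have h4 : ∑ i : Fin n, (4 * p * c i + 2 * δ + ∑ _j : Fin n, 5 * δ) =
      2 * (2 * p * ∑ i, c i) + (2 * n + 5 * n ^ 2) * δ := by
    simp only [sum_add_distrib, sum_const, card_univ, Fintype.card_fin, nsmul_eq_mul]
    rw [mul_sum, mul_sum]
    have : ∑ i : Fin n, 4 * p * c i = ∑ i : Fin n, 2 * (2 * p * c i) :=
      sum_congr rfl fun i _ => by ring
    rw [this]
    ring
  rw [h4]
  have h5 : (0 : ℝ) ≤ n := Nat.cast_nonneg n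
  have h6 : (2 * (n : ℝ) + 5 * n ^ 2) * δ ≤ 7 * ((n : ℝ) + 1) ^ 2 * δ :=
    mul_le_mul_of_nonneg_right (by nlinarith) hδ
  linarith

/-- The pairs. -/
theorem pair_mean (hW : Dis2 p δ W) (hδ : 0 ≤ δ) (U : Finset (Fin n)) :
    (avg fun ω => (∑ i ∈ U, xi (W ω) i) * ((∑ i ∈ U, xi (W ω) i) - 1)) ≤
      (p * U.card) ^ 2 + ((n : ℝ) + 1) ^ 2 * δ := by
  have h1 : ∀ ω, (∑ i ∈ U, xi (W ω) i) * ((∑ i ∈ U, xi (W ω) i) - 1) =
      ∑ i ∈ U, ∑ j ∈ U, if j = i then 0 else xi (W ω) i * xi (W ω) j := by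
    intro ω
    have h2 : ∀ i ∈ U, (∑ j ∈ U, if j = i then 0 else xi (W ω) i * xi (W ω) j) =
        xi (W ω) i * (∑ j ∈ U, xi (W ω) j) - xi (W ω) i := by
      intro i hi
      have h3 : ∀ j ∈ U, (if j = i then 0 else xi (W ω) i * xi (W ω) j) =
          xi (W ω) i * xi (W ω) j - if j = i then xi (W ω) i else 0 := by
        intro j _
        split
        · next h => subst h; rcases lt_xi (W ω) j with h | h <;> rw [h] <;> norm_num
        · ring
      rw [sum_congr rfl h3, sum_sub_distrib, ← mul_sum, sum_ite_eq' U i, if_pos hi]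
    rw [sum_congr rfl h2, sum_sub_distrib, ← sum_mul]
    ring
  simp only [h1]
  rw [avg_sum]
  have h4 : ∀ i ∈ U, (avg fun ω => ∑ j ∈ U, if j = i then 0 else xi (W ω) i * xi (W ω) j) ≤
      ∑ _j ∈ U, (p ^ 2 + δ) := by
    intro i _
    rw [avg_sum]
    refine sum_le_sum fun j _ => ?_
    by_cases hij : j = i
    · simp only [if_pos hij]
      rw [avg_const]
      positivity
    · simp only [if_neg hij]
      have := lt_two hW (Ne.symm hij)
      rw [abs_le] at this
      linarith [this.2]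
  refine (sum_le_sum h4).trans ?_
  simp only [sum_const, nsmul_eq_mul]
  have h5 : (U.card : ℝ) ≤ n := by
    have := card_le_univ U
    rw [Fintype.card_fin] at this
    exact_mod_cast this
  have h6 : (0 : ℝ) ≤ U.card := Nat.cast_nonneg _
  have h7 : (U.card : ℝ) ^ 2 ≤ ((n : ℝ) + 1) ^ 2 := pow_le_pow_left₀ h6 (by linarith) 2
  nlinarith [mul_nonneg hδ (sub_nonneg.mpr h7)]

end LT

end Pool.Agent.MP_ca1109_lc.Pn
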