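import Pool.Agent.MP_ca1109_lc.Pn.Defs
import Pool.Agent.MP_ca1109_lc.Pt.SB

/-!
# Row SBn: small bias fools product tests of bounded loss and small Walsh norm
-/

namespace Pool.Agent.MP_ca1109_lc.Pn

open Finset Pool.Agent.H66 Pool.Agent.MP_ca1109_lc.Mpg Pool.Agent.MP_ca1109_lc.Agp
  Pool.Agent.MP_ca1109_lc.Xp Pool.Agent.MP_ca1109_lc.Pt
open Pool.Agent.MP_ca1109_lc.Dnf (Cube ch one On)

variable {n : ℕ}

/-- the centred quotient -/
theorem sbn_z {g : Cube n → ℂ} {N : ℝ} (hN : 1 ≤ N) (hg : Sp N g) (hμ : 1 / 2 ≤ ‖av g‖) :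
    Sp (3 * N) (fun x => g x / av g - 1) := by
  have hne : 0 < ‖av g‖ := by linarith
  have h1 := (hg.smul (1 / av g)).sub (Sp.const (n := n) 1)
  refine (h1.mono ?_).congr' fun x => ?_
  · rw [norm_one, norm_div, norm_one]
    have h2 : 1 / ‖av g‖ ≤ 2 := by
      rw [div_le_iff₀ hne]
      linarith
    nlinarith
  · ring

theorem sb {Lam ε : ℝ} (hε : 0 < ε) : ∃ K : ℕ, ∀ (n N : ℕ) (J : Finset (Fin n))
    (I : Fin n → Finset (Fin n)) (g : Fin n → Cube n → ℂ), Bln N J I g →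
    ∑ j ∈ J, (1 - ‖av (g j)‖) ≤ Lam → ∃ (t : Cube n → ℂ) (R : Cube n → ℝ),
      (∀ x, ‖∏ j ∈ J, g j x - t x‖ ≤ R x) ∧ avg R ≤ ε ∧ Sp (bd K n N) t ∧
      Sp (bd K n N) (fun x => ((R x : ℝ) : ℂ)) := by
  classical
  obtain ⟨Λ, hΛ⟩ : ∃ Λ : ℝ, Λ = max Lam 0 := ⟨_, rfl⟩
  have hΛ0 : 0 ≤ Λ := hΛ ▸ le_max_right _ _
  have hLamΛ : Lam ≤ Λ := hΛ ▸ le_max_left _ _
  obtain ⟨V₀, hV₀⟩ : ∃ V₀ : ℝ, V₀ = 8 * Λ := ⟨_, rfl⟩
  have hV₀0 : 0 ≤ V₀ := by rw [hV₀]; positivity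
  obtain ⟨h, hh⟩ : ∃ h : ℝ, h = ε / (2 * Real.exp V₀) := ⟨_, rfl⟩
  have hexp : 0 < Real.exp V₀ := Real.exp_pos _
  have hh0 : 0 < h := by rw [hh]; positivity
  obtain ⟨c, hc⟩ : ∃ c : ℝ, c = 1 + 1 / (2 * h) := ⟨_, rfl⟩
  have hc0 : 0 < c := by rw [hc]; positivity
  obtain ⟨a, ha⟩ : ∃ a : ℝ, a = max 1 (8 * c * V₀ / ε) := ⟨_, rfl⟩
  have ha1 : 1 ≤ a := ha ▸ le_max_left _ _
  have ha2 : 8 * c * V₀ / ε ≤ a := ha ▸ le_max_right _ _
  have ha0 : 0 < a := by linarith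
  obtain ⟨D, hD⟩ : ∃ D : ℕ, (1 / 2 : ℝ) ^ D < ε / 4 / Real.exp (4 * a) :=
    exists_pow_lt_of_lt_one (by positivity) (by norm_num)
  obtain ⟨m₀, hm₀⟩ := exists_nat_ge (2 * Λ)
  obtain ⟨C₁, hC₁⟩ : ∃ C₁ : ℝ, C₁ = (1 / 2) ^ D * Real.exp (4 * a) + c * (9 / a ^ 2 + 9 / a) +
    h / 2 * 9 ^ D := ⟨_, rfl⟩
  have hC₁0 : 0 ≤ C₁ := by rw [hC₁]; positivity
  obtain ⟨w, hw⟩ : ∃ w : ℕ, w = 3 ^ D := ⟨_, rfl⟩
  obtain ⟨K, hK⟩ : ∃ K : ℕ, K = ⌈C₁⌉₊ + w + m₀ + 2 * D + 2 := ⟨_, rfl⟩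
  refine ⟨K, fun n N J I g hB hL => ?_⟩
  have hn0 : (0 : ℝ) ≤ n := Nat.cast_nonneg n
  have hN1 : (1 : ℝ) ≤ N := by exact_mod_cast hB.pos
  obtain ⟨X, hX⟩ : ∃ X : ℝ, X = ((n : ℝ) + 1) * N := ⟨_, rfl⟩
  have hX1 : 1 ≤ X := by rw [hX]; nlinarith
  have hNX : (N : ℝ) ≤ X := by rw [hX]; nlinarith
  have hnNX : (n : ℝ) * N ≤ X := by rw [hX]; nlinarith
  -- the two parts
  have hμ1 : ∀ j ∈ J, ‖av (g j)‖ ≤ 1 := fun j hj => sb_norm_av (hB.le j hj)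
  obtain ⟨J₀, hJ₀⟩ : ∃ J₀, J₀ = J.filter fun j => ‖av (g j)‖ < 1 / 2 := ⟨_, rfl⟩
  obtain ⟨J₁, hJ₁⟩ : ∃ J₁, J₁ = J.filter fun j => ¬ ‖av (g j)‖ < 1 / 2 := ⟨_, rfl⟩
  have hJ₀J : J₀ ⊆ J := hJ₀ ▸ Finset.filter_subset _ _
  have hJ₁J : J₁ ⊆ J := hJ₁ ▸ Finset.filter_subset _ _
  have hsplit : ∀ F : Fin n → ℝ, ∑ j ∈ J, F j = ∑ j ∈ J₀, F j + ∑ j ∈ J₁, F j := fun F => by
    rw [hJ₀, hJ₁]
    exact (Finset.sum_filter_add_sum_filter_not J _ _).symm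
  have hnn : ∀ j ∈ J, 0 ≤ 1 - ‖av (g j)‖ := fun j hj => by linarith [hμ1 j hj]
  have hJ₀c : J₀.card ≤ m₀ := by
    have h1 : (J₀.card : ℝ) * (1 / 2) ≤ ∑ j ∈ J₀, (1 - ‖av (g j)‖) := by
      rw [← nsmul_eq_mul]
      refine Finset.card_nsmul_le_sum _ _ _ fun j hj => ?_
      rw [hJ₀] at hj
      have := (Finset.mem_filter.mp hj).2
      linarith
    have h2 : 0 ≤ ∑ j ∈ J₁, (1 - ‖av (g j)‖) := Finset.sum_nonneg fun j hj => hnn j (hJ₁J hj)
    have h3 := hsplit fun j => 1 - ‖av (g j)‖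
    have h4 : (J₀.card : ℝ) ≤ m₀ := by linarith
    exact_mod_cast h4
  have hhalf : ∀ j ∈ J₁, 1 / 2 ≤ ‖av (g j)‖ := fun j hj => by
    rw [hJ₁] at hj
    exact not_lt.mp (Finset.mem_filter.mp hj).2
  -- the centred functions
  obtain ⟨z, hz⟩ : ∃ z : Fin n → Cube n → ℂ, z = fun j x => g j x / av (g j) - 1 := ⟨_, rfl⟩
  have hz1 : ∀ j ∈ J₁, av (z j) = 0 := fun j hj => by
    rw [hz]
    exact (sb_z (hB.le j (hJ₁J hj)) (hhalf j hj)).1
  have hz2 : ∀ j ∈ J₁, ∀ x, ‖z j x‖ ≤ 3 := fun j hj x => by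
    rw [hz]
    exact (sb_z (hB.le j (hJ₁J hj)) (hhalf j hj)).2.1 x
  have hz3 : ∀ j ∈ J₁, (avg fun x => ‖z j x‖ ^ 2) ≤ 8 * (1 - ‖av (g j)‖) := fun j hj => by
    rw [hz]
    exact (sb_z (hB.le j (hJ₁J hj)) (hhalf j hj)).2.2
  have hzon : ∀ j ∈ J₁, On (I j) (z j) := fun j hj x y hxy => by
    rw [hz]
    simp only [hB.on j (hJ₁J hj) x y hxy]
  have hdj : ∀ i ∈ J₁, ∀ j ∈ J₁, i ≠ j → Disjoint (I i) (I j) := fun i hi j hj =>
    hB.dj i (hJ₁J hi) j (hJ₁J hj)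
  have hV : ∑ j ∈ J₁, (avg fun x => ‖z j x‖ ^ 2) ≤ V₀ := by
    have h1 : ∑ j ∈ J₁, (avg fun x => ‖z j x‖ ^ 2) ≤ ∑ j ∈ J₁, 8 * (1 - ‖av (g j)‖) :=
      Finset.sum_le_sum hz3
    rw [← Finset.mul_sum] at h1
    have h2 : 0 ≤ ∑ j ∈ J₀, (1 - ‖av (g j)‖) := Finset.sum_nonneg fun j hj => hnn j (hJ₀J hj)
    have h3 := hsplit fun j => 1 - ‖av (g j)‖
    rw [hV₀]
    linarith
  -- the approximation
  obtain ⟨κ, hκ⟩ : ∃ κ : ℂ, κ = ∏ j ∈ J₁, av (g j) := ⟨_, rfl⟩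
  have hκ1 : ‖κ‖ ≤ 1 := by
    rw [hκ, norm_prod]
    exact Finset.prod_le_one (fun j _ => norm_nonneg _) fun j hj => hμ1 j (hJ₁J hj)
  obtain ⟨T, hT⟩ : ∃ T : Cube n → ℂ, T = fun x => esT J₁ D (fun j => z j x) := ⟨_, rfl⟩
  obtain ⟨P, hP⟩ : ∃ P : Cube n → ℂ, P = fun x => ∑ j ∈ J₁, z j x := ⟨_, rfl⟩
  obtain ⟨Q, hQ⟩ : ∃ Q : Cube n → ℝ, Q = fun x => ∑ j ∈ J₁, ‖z j x‖ ^ 2 := ⟨_, rfl⟩
  obtain ⟨t, ht⟩ : ∃ t : Cube n → ℂ, t = fun x => (∏ j ∈ J₀, g j x) * (κ * T x) := ⟨_, rfl⟩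
  obtain ⟨R, hR⟩ : ∃ R : Cube n → ℝ, R = fun x => (1 / 2) ^ D * Real.exp (4 * a) +
    (c * (‖P x‖ ^ 2 / a ^ 2 + Q x / a) + h / 2 * ‖T x‖ ^ 2) := ⟨_, rfl⟩
  have hQ0 : ∀ x, 0 ≤ Q x := fun x => by
    rw [hQ]
    exact Finset.sum_nonneg fun j _ => by positivity
  have hF0 : ∀ x, ‖∏ j ∈ J₀, g j x‖ ≤ 1 := fun x => by
    rw [norm_prod]
    exact Finset.prod_le_one (fun j _ => norm_nonneg _) fun j hj => hB.le j (hJ₀J hj) x
  have hprod : ∀ x, ∏ j ∈ J, g j x = (∏ j ∈ J₀, g j x) * (κ * ∏ j ∈ J₁, (1 + z j x)) := by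
    intro x
    have h1 : ∏ j ∈ J, g j x = (∏ j ∈ J₀, g j x) * ∏ j ∈ J₁, g j x := by
      rw [hJ₀, hJ₁]
      exact (Finset.prod_filter_mul_prod_filter_not J _ _).symm
    rw [h1, hκ, ← Finset.prod_mul_distrib]
    congr 1
    refine Finset.prod_congr rfl fun j hj => ?_
    have hne : av (g j) ≠ 0 := by
      intro h0
      have := hhalf j hj
      rw [h0, norm_zero] at this
      norm_num at this
    rw [hz]
    field_simp
    ring
  refine ⟨t, R, ?_, ?_, ?_, ?_⟩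
  · intro x
    have hg1 : ‖∏ j ∈ J, g j x‖ ≤ 1 := by
      rw [norm_prod]
      exact Finset.prod_le_one (fun j _ => norm_nonneg _) fun j hj => hB.le j hj x
    have ht1 : ‖t x‖ ≤ ‖T x‖ := by
      rw [ht]
      simp only
      rw [norm_mul, norm_mul]
      calc ‖∏ j ∈ J₀, g j x‖ * (‖κ‖ * ‖T x‖) ≤ 1 * (1 * ‖T x‖) := by
            gcongr
            exact hF0 x
        _ = ‖T x‖ := by ring
    by_cases hgood : ‖P x‖ ≤ a ∧ Q x ≤ a
    · have h1 : ‖∏ j ∈ J, g j x - t x‖ ≤ ‖∏ j ∈ J₁, (1 + z j x) - T x‖ := by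
        rw [hprod x, ht]
        simp only
        rw [← mul_sub, ← mul_sub, norm_mul, norm_mul]
        calc ‖∏ j ∈ J₀, g j x‖ * (‖κ‖ * ‖∏ j ∈ J₁, (1 + z j x) - T x‖)
            ≤ 1 * (1 * ‖∏ j ∈ J₁, (1 + z j x) - T x‖) := by
              gcongr
              exact hF0 x
          _ = _ := by ring
      have h2 : ‖∏ j ∈ J₁, (1 + z j x) - T x‖ ≤
          (1 / 2) ^ D * Real.exp (2 * ‖P x‖ + 2 * Q x) := by
        rw [hT, hP, hQ]
        exact esT_close J₁ (fun j => z j x) D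
      have h3 : Real.exp (2 * ‖P x‖ + 2 * Q x) ≤ Real.exp (4 * a) :=
        Real.exp_le_exp.mpr (by linarith [hgood.1, hgood.2])
      have h4 : (1 / 2 : ℝ) ^ D * Real.exp (2 * ‖P x‖ + 2 * Q x) ≤
          (1 / 2) ^ D * Real.exp (4 * a) := mul_le_mul_of_nonneg_left h3 (by positivity)
      have h5 : 0 ≤ c * (‖P x‖ ^ 2 / a ^ 2 + Q x / a) + h / 2 * ‖T x‖ ^ 2 := by
        have := hQ0 x
        positivity
      rw [hR]
      simp only
      linarith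
    · have h1 : 1 ≤ ‖P x‖ ^ 2 / a ^ 2 + Q x / a := by
        rw [not_and_or, not_le, not_le] at hgood
        rcases hgood with h | h
        · have h2 : 1 ≤ ‖P x‖ ^ 2 / a ^ 2 := by
            rw [le_div_iff₀ (by positivity), one_mul]
            exact pow_le_pow_left₀ ha0.le h.le 2
          have h3 : 0 ≤ Q x / a := div_nonneg (hQ0 x) ha0.le
          linarith
        · have h2 : 1 ≤ Q x / a := by
            rw [le_div_iff₀ ha0, one_mul]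
            exact h.le
          have h3 : 0 ≤ ‖P x‖ ^ 2 / a ^ 2 := by positivity
          linarith
      have h2 : ‖∏ j ∈ J, g j x - t x‖ ≤ 1 + ‖T x‖ :=
        (norm_sub_le _ _).trans (add_le_add hg1 ht1)
      have h3 : ‖T x‖ ≤ 1 / (2 * h) + h / 2 * ‖T x‖ ^ 2 := by
        have h4 : 1 / (2 * h) + h / 2 * ‖T x‖ ^ 2 - ‖T x‖ = (h * ‖T x‖ - 1) ^ 2 / (2 * h) := by
          field_simp
          ring
        have h5 : 0 ≤ (h * ‖T x‖ - 1) ^ 2 / (2 * h) := by positivity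
        linarith
      have h6 : 1 + 1 / (2 * h) ≤ c * (‖P x‖ ^ 2 / a ^ 2 + Q x / a) := by
        rw [← hc]
        calc c = c * 1 := (mul_one c).symm
          _ ≤ _ := mul_le_mul_of_nonneg_left h1 hc0.le
      have h7 : 0 ≤ (1 / 2 : ℝ) ^ D * Real.exp (4 * a) := by positivity
      rw [hR]
      simp only
      linarith
  · -- the average
    have hQa : avg Q = ∑ j ∈ J₁, (avg fun x => ‖z j x‖ ^ 2) := by
      rw [hQ]
      exact avg_sum J₁ fun j x => ‖z j x‖ ^ 2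
    have hPa : (avg fun x => ‖P x‖ ^ 2) = ∑ j ∈ J₁, (avg fun x => ‖z j x‖ ^ 2) := by
      rw [hP]
      exact avg_sum_sq hdj z hzon hz1
    have hTa : (avg fun x => ‖T x‖ ^ 2) ≤ Real.exp V₀ := by
      rw [hT]
      exact (avg_esT_sq hdj z hzon hz1 D).trans (Real.exp_le_exp.mpr hV)
    have h1 : avg R = (1 / 2) ^ D * Real.exp (4 * a) +
        (c * ((avg fun x => ‖P x‖ ^ 2) / a ^ 2 + avg Q / a) +
          h / 2 * (avg fun x => ‖T x‖ ^ 2)) := by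
      rw [hR, avg_add, avg_const, avg_add, avg_mul_left, avg_mul_left, avg_add]
      have e1 : (avg fun x => ‖P x‖ ^ 2 / a ^ 2) = (avg fun x => ‖P x‖ ^ 2) / a ^ 2 := by
        unfold avg
        rw [← Finset.sum_div, div_right_comm]
      have e2 : (avg fun x => Q x / a) = avg Q / a := by
        unfold avg
        rw [← Finset.sum_div, div_right_comm]
      rw [e1, e2]
    rw [h1, hQa, hPa]
    set V := ∑ j ∈ J₁, (avg fun x => ‖z j x‖ ^ 2) with hVdef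
    have hV0 : 0 ≤ V := Finset.sum_nonneg fun j _ => by
      unfold avg
      positivity
    have k1 : (1 / 2 : ℝ) ^ D * Real.exp (4 * a) ≤ ε / 4 := by
      rw [lt_div_iff₀ (Real.exp_pos _)] at hD
      exact hD.le
    have k2 : c * (V / a ^ 2 + V / a) ≤ ε / 4 := by
      have e1 : V / a ^ 2 ≤ V / a := by
        apply div_le_div_of_nonneg_left hV0 ha0
        nlinarith
      have e2 : V / a ≤ V₀ / a := div_le_div_of_nonneg_right hV ha0.le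
      have e3 : 8 * c * V₀ ≤ a * ε := by
        rw [div_le_iff₀ hε] at ha2
        exact ha2
      have e4 : c * (V₀ / a) ≤ ε / 8 := by
        rw [← mul_div_assoc, div_le_iff₀ ha0]
        linarith
      have e5 : c * (V / a ^ 2 + V / a) ≤ c * (2 * (V₀ / a)) :=
        mul_le_mul_of_nonneg_left (by linarith) hc0.le
      linarith
    have k3 : h / 2 * (avg fun x => ‖T x‖ ^ 2) ≤ ε / 4 := by
      have e1 : h / 2 * (avg fun x => ‖T x‖ ^ 2) ≤ h / 2 * Real.exp V₀ :=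
        mul_le_mul_of_nonneg_left hTa (by positivity)
      have e2 : h / 2 * Real.exp V₀ = ε / 4 := by
        rw [hh]
        field_simp
        ring
      linarith
    linarith
  · -- the norm of the approximation
    have h1 : Sp ((N : ℝ) ^ J₀.card) (fun x => ∏ j ∈ J₀, g j x) := by
      have := Sp.prod J₀ (fun _ => (N : ℝ)) g fun j hj => hB.sp j (hJ₀J hj)
      rwa [Finset.prod_const] at this
    have hzsp : ∀ j ∈ J₁, Sp (3 * N) (z j) := fun j hj => by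
      rw [hz]
      exact sbn_z hN1 (hB.sp j (hJ₁J hj)) (hhalf j hj)
    have h2 : Sp ((((n : ℝ) + 1) * (3 * N)) ^ D) T := by
      rw [hT]
      exact esT_sp (by linarith) z hzsp D
    have h3 := h1.mul ((h2.smul κ))
    rw [ht]
    refine h3.mono ?_
    have h4 : ((n : ℝ) + 1) * (3 * N) = 3 * X := by rw [hX]; ring
    rw [h4]
    have h5 : (N : ℝ) ^ J₀.card ≤ X ^ m₀ :=
      (pow_le_pow_left₀ (by linarith) hNX _).trans (pow_le_pow_right₀ hX1 hJ₀c)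
    calc (N : ℝ) ^ J₀.card * (‖κ‖ * (3 * X) ^ D) ≤ X ^ m₀ * (1 * (3 * X) ^ D) := by
          have : 0 ≤ (3 * X) ^ D := by positivity
          gcongr
      _ = 3 ^ D * X ^ (m₀ + D) := by rw [mul_pow, pow_add]; ring
      _ ≤ K * X ^ K := by
          apply sb_bd _ hX1 (by omega)
          have : 3 ^ D ≤ K := by rw [← hw]; omega
          exact_mod_cast this
      _ = bd K n N := by unfold bd; rw [hX]
  · -- the norm of the error
    have hzsp : ∀ j ∈ J₁, Sp (3 * N) (z j) := fun j hj => by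
      rw [hz]
      exact sbn_z hN1 (hB.sp j (hJ₁J hj)) (hhalf j hj)
    have hJ₁n : (J₁.card : ℝ) ≤ n := by
      have := Finset.card_le_univ J₁
      rw [Fintype.card_fin] at this
      exact_mod_cast this
    have hT2 : Sp ((((n : ℝ) + 1) * (3 * N)) ^ D) T := by
      rw [hT]
      exact esT_sp (by linarith) z hzsp D
    have hT3 := sp_normsq hT2
    have hP2 : Sp (3 * X) P := by
      rw [hP]
      have := Sp.sum J₁ (fun _ => 3 * (N : ℝ)) z hzsp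
      refine this.mono ?_
      rw [Finset.sum_const, nsmul_eq_mul]
      nlinarith
    have hP3 := sp_normsq hP2
    have hQ3 : Sp (9 * X ^ 2) (fun x => ((Q x : ℝ) : ℂ)) := by
      rw [hQ]
      have h1 := Sp.sum J₁ (fun _ => (3 * (N : ℝ)) ^ 2) (fun j x => ((‖z j x‖ ^ 2 : ℝ) : ℂ))
        fun j hj => sp_normsq (hzsp j hj)
      refine (h1.mono ?_).congr' fun x => ?_
      · rw [Finset.sum_const, nsmul_eq_mul]
        have e1 : (J₁.card : ℝ) * (3 * N) ^ 2 ≤ n * (3 * N) ^ 2 :=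
          mul_le_mul_of_nonneg_right hJ₁n (by positivity)
        have e2 : (n : ℝ) * N * N ≤ X * X := mul_le_mul hnNX hNX (by linarith) (by linarith)
        nlinarith
      · push_cast
        rfl
    have hsum := (Sp.const (n := n) (((1 / 2 : ℝ) ^ D * Real.exp (4 * a) : ℝ) : ℂ)).add
      ((((hP3.smul (((1 / a ^ 2 : ℝ)) : ℂ)).add (hQ3.smul (((1 / a : ℝ)) : ℂ))).smul
        ((c : ℝ) : ℂ)).add (hT3.smul (((h / 2 : ℝ)) : ℂ)))
    refine (hsum.mono ?_).congr' fun x => ?_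
    · have q1 : ‖(((1 / 2 : ℝ) ^ D * Real.exp (4 * a) : ℝ) : ℂ)‖ =
          (1 / 2 : ℝ) ^ D * Real.exp (4 * a) := by
        rw [Complex.norm_real, Real.norm_of_nonneg (by positivity)]
      have q2 : ‖(((1 / a ^ 2 : ℝ)) : ℂ)‖ = 1 / a ^ 2 := by
        rw [Complex.norm_real, Real.norm_of_nonneg (by positivity)]
      have q3 : ‖(((1 / a : ℝ)) : ℂ)‖ = 1 / a := by
        rw [Complex.norm_real, Real.norm_of_nonneg (by positivity)]
      have q4 : ‖((c : ℝ) : ℂ)‖ = c := by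
        rw [Complex.norm_real, Real.norm_of_nonneg hc0.le]
      have q5 : ‖(((h / 2 : ℝ)) : ℂ)‖ = h / 2 := by
        rw [Complex.norm_real, Real.norm_of_nonneg (by positivity)]
      rw [q1, q2, q3, q4, q5]
      have h4 : ((n : ℝ) + 1) * (3 * N) = 3 * X := by rw [hX]; ring
      rw [h4]
      have hX2 : X ^ 2 ≤ X ^ (2 * D + 2) := pow_le_pow_right₀ hX1 (by omega)
      have hXD : X ^ (2 * D) ≤ X ^ (2 * D + 2) := pow_le_pow_right₀ hX1 (by omega)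
      have hX0 : 1 ≤ X ^ (2 * D + 2) := one_le_pow₀ hX1
      have e1 : (1 / 2 : ℝ) ^ D * Real.exp (4 * a) ≤
          (1 / 2) ^ D * Real.exp (4 * a) * X ^ (2 * D + 2) :=
        le_mul_of_one_le_right (by positivity) hX0
      have e2 : c * (1 / a ^ 2 * (3 * X) ^ 2 + 1 / a * (9 * X ^ 2)) ≤
          c * (9 / a ^ 2 + 9 / a) * X ^ (2 * D + 2) := by
        have e3 : c * (1 / a ^ 2 * (3 * X) ^ 2 + 1 / a * (9 * X ^ 2)) =
            c * (9 / a ^ 2 + 9 / a) * X ^ 2 := by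
          ring
        rw [e3]
        exact mul_le_mul_of_nonneg_left hX2 (by positivity)
      have e4 : h / 2 * ((3 * X) ^ D) ^ 2 ≤ h / 2 * 9 ^ D * X ^ (2 * D + 2) := by
        have e5 : h / 2 * ((3 * X) ^ D) ^ 2 = h / 2 * 9 ^ D * X ^ (2 * D) := by
          rw [mul_pow, mul_pow, ← pow_mul, ← pow_mul, mul_comm D 2, pow_mul 3 2 D]
          norm_num
          ring
        rw [e5]
        exact mul_le_mul_of_nonneg_left hXD (by positivity)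
      calc _ ≤ (1 / 2) ^ D * Real.exp (4 * a) * X ^ (2 * D + 2) +
            (c * (9 / a ^ 2 + 9 / a) * X ^ (2 * D + 2) + h / 2 * 9 ^ D * X ^ (2 * D + 2)) :=
            add_le_add e1 (add_le_add e2 e4)
        _ = C₁ * X ^ (2 * D + 2) := by rw [hC₁]; ring
        _ ≤ K * X ^ K := by
            apply sb_bd _ hX1 (by omega)
            have h6 : C₁ ≤ ⌈C₁⌉₊ := Nat.le_ceil C₁
            have h7 : ((⌈C₁⌉₊ : ℕ) : ℝ) ≤ K := by
              have : ⌈C₁⌉₊ ≤ K := by rw [hK]; omega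
              exact_mod_cast this
            linarith
        _ = bd K n N := by unfold bd; rw [hX]
    · rw [hR]
      push_cast
      ring

end Pool.Agent.MP_ca1109_lc.Pn
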