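import Pool.Agent.MP_ca1109_lc.Pn.Defs
import Pool.Agent.MP_ca1109_lc.Pt.MZ

/-!
# Row Z2: the parities of the random shift are a product test
-/

namespace Pool.Agent.MP_ca1109_lc.Pn

open Finset Pool.Agent.H66 Pool.Agent.MP_ca1109_lc.Mpg Pool.Agent.MP_ca1109_lc.Agp
  Pool.Agent.MP_ca1109_lc.Xp Pool.Agent.MP_ca1109_lc.Pt
open Pool.Agent.MP_ca1109_lc.Dnf (Cube ch one On)

variable {n : ℕ}

/-- The bits of the block of the bit `k`. -/
def zb {n m : ℕ} (k : Fin (n * m)) : Finset (Fin (n * m)) :=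
  univ.filter fun k' => (finProdFinEquiv.symm k').1 = (finProdFinEquiv.symm k).1

/-- The sign of one block. -/
noncomputable def zs {L s : ℕ} (l : ℕ) (d : Fin (2 ^ s) → Bool) (b : Cube (L + s)) : ℝ :=
  1 - 2 * one (bt l b ∧ bh b ∈ univ.filter fun c => d c = true)

theorem zs_abs {L s : ℕ} (l : ℕ) (d : Fin (2 ^ s) → Bool) (b : Cube (L + s)) : |zs l d b| ≤ 1 := by
  unfold zs
  rw [abs_le]
  have h1 := Dnf.one_nonneg (bt l b ∧ bh b ∈ univ.filter fun c => d c = true)
  have h2 := Dnf.one_le (bt l b ∧ bh b ∈ univ.filter fun c => d c = true)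
  constructor <;> linarith

theorem zb_card {n m : ℕ} (k : Fin (n * m)) : (zb k).card ≤ m := by
  classical
  have h : zb k ⊆ (univ : Finset (Fin m)).image
      fun t => finProdFinEquiv ((finProdFinEquiv.symm k).1, t) := by
    intro k' hk'
    unfold zb at hk'
    rw [mem_filter] at hk'
    rw [mem_image]
    refine ⟨(finProdFinEquiv.symm k').2, mem_univ _, ?_⟩
    rw [← hk'.2]
    show finProdFinEquiv ((finProdFinEquiv.symm k').1, (finProdFinEquiv.symm k').2) = k'
    exact Equiv.apply_symm_apply finProdFinEquiv k'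
  refine (card_le_card h).trans (card_image_le.trans ?_)
  rw [card_univ, Fintype.card_fin]

/-- The parities of the shift are a product test over the blocks of `z`. -/
theorem cc_blk {L s l : ℕ} (hl : l ≤ L) (hL : 0 < L + s) (d : Fin (2 ^ s) → Bool)
    (U : Finset (Fin n)) : ∃ (J : Finset (Fin (n * (L + s))))
      (I : Fin (n * (L + s)) → Finset (Fin (n * (L + s))))
      (f : Fin (n * (L + s)) → Cube (n * (L + s)) → ℂ), Blk (2 ^ (L + s)) J I f ∧
      ∀ z, ((cc U (wd (eta z l) (hsh z) d) : ℝ) : ℂ) = ∏ j ∈ J, f j z := by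
  classical
  set a : Fin n → Fin (n * (L + s)) := fun i => finProdFinEquiv (i, ⟨0, hL⟩) with ha
  have ha1 : ∀ i, (finProdFinEquiv.symm (a i)).1 = i := fun i => by
    rw [ha]
    simp
  have hinj : Set.InjOn a (U : Set (Fin n)) := fun i _ j _ hij => by
    rw [← ha1 i, ← ha1 j, hij]
  refine ⟨U.image a, zb, fun k z => ((zs l d (Pt.blk z (finProdFinEquiv.symm k).1) : ℝ) : ℂ),
    ⟨Nat.one_le_two_pow, ?_, ?_, ?_, ?_⟩, ?_⟩
  · intro k hk k' hk' hne
    rw [mem_image] at hk hk'
    obtain ⟨i, _, rfl⟩ := hk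
    obtain ⟨j, _, rfl⟩ := hk'
    rw [Finset.disjoint_left]
    intro x hx hx'
    unfold zb at hx hx'
    rw [mem_filter, ha1] at hx hx'
    exact hne (by rw [← hx.2, ← hx'.2])
  · intro k _
    exact Nat.pow_le_pow_right (by norm_num) (zb_card k)
  · intro k _ x y hxy
    have h1 : Pt.blk x (finProdFinEquiv.symm k).1 = Pt.blk y (finProdFinEquiv.symm k).1 := by
      funext t
      refine hxy _ ?_
      unfold zb
      rw [mem_filter]
      exact ⟨mem_univ _, by simp⟩
    show ((zs l d (Pt.blk x (finProdFinEquiv.symm k).1) : ℝ) : ℂ) =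
      ((zs l d (Pt.blk y (finProdFinEquiv.symm k).1) : ℝ) : ℂ)
    rw [h1]
  · intro k _ x
    rw [Complex.norm_real, Real.norm_eq_abs]
    exact zs_abs l d _
  · intro z
    rw [prod_image hinj, cc_wd]
    push_cast
    refine prod_congr rfl fun i _ => ?_
    rw [ha1]
    unfold zs
    push_cast
    rfl

end Pool.Agent.MP_ca1109_lc.Pn
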