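import Pool.Agent.MP_ca1109_lc.Pn.Defs
import Pool.Agent.MP_ca1109_lc.Pn.KB
import Pool.Agent.MP_ca1109_lc.Pn.Z2
import Pool.Agent.MP_ca1109_lc.Pt.MZ
import Pool.Agent.MP_ca1109_lc.Pt.XZ

/-!
# The generator whose second string fools product tests over small blocks
-/

namespace Pool.Agent.MP_ca1109_lc.Pn

open Finset Pool.Agent.H66 Pool.Agent.MP_ca1109_lc.Mpg Pool.Agent.MP_ca1109_lc.Agp
  Pool.Agent.MP_ca1109_lc.Xp Pool.Agent.MP_ca1109_lc.Pt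
open Pool.Agent.MP_ca1109_lc.Dnf (Cube ch one On)

variable {n : ℕ}

/-- The generator with two different ingredients. -/
theorem pgen2 (r s : ℕ) {E₁ E₂ : ℕ → ℕ} (G₁ G₂ : ℕ → ℕ → ℕ → Bool) (n : ℕ) (f : Cube n → ℂ) :
    na (2 ^ zE r s E₁ E₂ n) (fun p => f (out (zG r s E₂ G₁ G₂) n p)) =
      av fun v : Fin (zL r n) → Fin (2 ^ s) → Bool =>
        av fun ω₂ : Fin (2 ^ E₂ (n * (zL r n + s))) => av fun ω₁ : Fin (2 ^ E₁ n) =>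
          f (gx (out G₁ n ω₁) (fun l : Fin (zL r n) => eta (zZs r s G₂ n ω₂) (l : ℕ))
            (hsh (zZs r s G₂ n ω₂)) v) := by
  rw [zE_pow]
  have h1 : (fun p => f (out (zG r s E₂ G₁ G₂) n p)) = fun p =>
      (fun a b c => f (gx (out G₁ n a) (fun l : Fin (zL r n) => eta (zZs r s G₂ n b) (l : ℕ))
        (hsh (zZs r s G₂ n b)) (zW (zL r n) (2 ^ s) c))) (p / zV r s n / zM r s E₂ n)
        (p / zV r s n % zM r s E₂ n) (p % zV r s n) := by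
    funext p
    congr 1
    funext i
    exact zG_eq r s G₁ G₂ n _ _ _ i
  rw [h1, zn_split _ _ _ (by unfold zM; positivity) (by unfold zV; positivity)
    (fun a b c => f (gx (out G₁ n a) (fun l : Fin (zL r n) => eta (zZs r s G₂ n b) (l : ℕ))
        (hsh (zZs r s G₂ n b)) (zW (zL r n) (2 ^ s) c)))]
  have h2 := zn_bits (zL r n) (2 ^ s) (fun v => na (zM r s E₂ n) fun b => na (2 ^ E₁ n) fun a =>
    f (gx (out G₁ n a) (fun l : Fin (zL r n) => eta (zZs r s G₂ n b) (l : ℕ))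
        (hsh (zZs r s G₂ n b)) v))
  refine h2.trans ?_
  congr 1
  funext v
  rw [av_fin (2 ^ E₂ (n * (zL r n + s))) (fun ω₂ => av fun ω₁ : Fin (2 ^ E₁ n) =>
    f (gx (out G₁ n ω₁) (fun l : Fin (zL r n) => eta (zZs r s G₂ n ω₂) (l : ℕ))
        (hsh (zZs r s G₂ n ω₂)) v))]
  refine na_congr fun b _ => ?_
  rw [av_fin (2 ^ E₁ n) (fun a =>
    f (gx (out G₁ n a) (fun l : Fin (zL r n) => eta (zZs r s G₂ n b) (l : ℕ))
        (hsh (zZs r s G₂ n b)) v))]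

theorem pgenZ2 (r s K c : ℕ) {ε₀ : ℝ} (hε₀ : 0 < ε₀) : ∃ (E : ℕ → ℕ) (G : ℕ → ℕ → ℕ → Bool),
    NG E G ∧ ∃ n₁ : ℕ, ∀ n : ℕ, ∃ (M₁ M₂ : ℕ), 0 < M₁ ∧ 0 < M₂ ∧ ∃ (Y : Fin M₁ → Cube n)
      (Z : Fin M₂ → Cube (n * (Nat.clog 2 n + r + 1 + s))),
      Bias (1 / ((n : ℝ) + 1) ^ K) Y ∧ Bias (1 / ((n : ℝ) + 1) ^ K) Z ∧
      (n₁ ≤ n → ∀ (J : Finset (Fin (n * (Nat.clog 2 n + r + 1 + s))))
        (I : Fin (n * (Nat.clog 2 n + r + 1 + s)) →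
          Finset (Fin (n * (Nat.clog 2 n + r + 1 + s))))
        (f : Fin (n * (Nat.clog 2 n + r + 1 + s)) →
          Cube (n * (Nat.clog 2 n + r + 1 + s)) → ℂ),
        Blk ((n * (Nat.clog 2 n + r + 1 + s)) ^ c) J I f →
        ‖av (fun ω => ∏ j ∈ J, f j (Z ω)) - av (fun z => ∏ j ∈ J, f j z)‖ ≤ ε₀) ∧
      ∀ f : Cube n → ℂ, na (2 ^ E n) (fun p => f (out G n p)) =
        av fun v : Fin (Nat.clog 2 n + r + 1) → Fin (2 ^ s) → Bool => av fun ω₂ => av fun ω₁ =>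
          f (gx (Y ω₁) (fun l : Fin (Nat.clog 2 n + r + 1) => eta (Z ω₂) (l : ℕ))
            (hsh (Z ω₂)) v) := by
  obtain ⟨E₁, G₁, hG₁, H₁⟩ := Hyb.small_bias_poly K one_pos
  obtain ⟨E₂, G₂, hG₂, H₂, n₀, h₂⟩ := main_prod_bias c K hε₀
  refine ⟨_, _, zG_ng r s hG₁ hG₂, n₀, fun n => ⟨2 ^ E₁ n, 2 ^ E₂ (n * (zL r n + s)),
    by positivity, by positivity, fun ω => out G₁ n ω, fun ω => zZs r s G₂ n ω, zn_bias (H₁ n),
    ?_, fun hn J I f hf => ?_, fun f => pgen2 r s G₁ G₂ n f⟩⟩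
  · refine Bias.mono (H₂ (n * (zL r n + s))) ?_
    refine one_div_le_one_div_of_le (by positivity) (pow_le_pow_left₀ (by positivity) ?_ K)
    have h1 : n ≤ n * (zL r n + s) := Nat.le_mul_of_pos_right n (by unfold zL; omega)
    have h2 : (n : ℝ) ≤ ((n * (zL r n + s) : ℕ) : ℝ) := by exact_mod_cast h1
    linarith
  · have h1 : n ≤ n * (zL r n + s) := Nat.le_mul_of_pos_right n (by unfold zL; omega)
    have h3 : ‖na (2 ^ E₂ (n * (zL r n + s))) (fun p => ∏ j ∈ J, f j (zZs r s G₂ n p)) -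
        av (fun z => ∏ j ∈ J, f j z)‖ ≤ ε₀ := h₂ (n * (zL r n + s)) (hn.trans h1) J I f hf
    rw [← av_fin] at h3
    exact h3

theorem xgenZ2 (s K c : ℕ) {ε₀ : ℝ} (hε₀ : 0 < ε₀) : ∃ (E : ℕ → ℕ) (G : ℕ → ℕ → ℕ → Bool),
    NG E G ∧ ∃ n₁ : ℕ, ∀ n : ℕ, ∃ (M₁ M₂ : ℕ), 0 < M₁ ∧ 0 < M₂ ∧ ∃ (Y : Fin M₁ → Cube n)
      (Z : Fin M₂ → Cube (n * ((Nat.clog 2 n + 1) + s))),
      Bias (1 / ((n : ℝ) + 1) ^ K) Y ∧ Bias (1 / ((n : ℝ) + 1) ^ K) Z ∧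
      (n₁ ≤ n → ∀ (J : Finset (Fin (n * ((Nat.clog 2 n + 1) + s))))
        (I : Fin (n * ((Nat.clog 2 n + 1) + s)) → Finset (Fin (n * ((Nat.clog 2 n + 1) + s))))
        (f : Fin (n * ((Nat.clog 2 n + 1) + s)) → Cube (n * ((Nat.clog 2 n + 1) + s)) → ℂ),
        Blk ((n * ((Nat.clog 2 n + 1) + s)) ^ c) J I f →
        ‖av (fun ω => ∏ j ∈ J, f j (Z ω)) - av (fun z => ∏ j ∈ J, f j z)‖ ≤ ε₀) ∧
      ∀ f : Cube n → ℂ, na (2 ^ E n) (fun p => f (out G n p)) =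
        av fun v : Fin (Nat.clog 2 n + 1) → Fin (2 ^ s) → Bool => av fun ω₂ => av fun ω₁ =>
          f (gx (Y ω₁) (fun l => eta (Z ω₂) (l : ℕ)) (hsh (Z ω₂)) v) :=
  pgenZ2 0 s K c hε₀

theorem zc_blk_mono {N N' : ℕ} {J : Finset (Fin n)} {I : Fin n → Finset (Fin n)}
    {f : Fin n → Cube n → ℂ} (h : Blk N J I f) (hN : N ≤ N') : Blk N' J I f :=
  ⟨h.pos.trans hN, h.dj, fun j hj => (h.wd j hj).trans hN, h.on, h.le⟩

theorem zc_num (s n : ℕ) (hn : 2 ^ (s + 2) ≤ n) :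
    2 ^ ((Nat.clog 2 n + 1) + s) ≤ (n * ((Nat.clog 2 n + 1) + s)) ^ 2 := by
  have hn1 : 1 < n := by
    have : 1 < 2 ^ (s + 2) := Nat.one_lt_two_pow (by omega)
    omega
  have h1 : 2 ^ Nat.clog 2 n ≤ 2 * n := by
    have h2 := Nat.pow_pred_clog_lt_self one_lt_two hn1
    have h3 : Nat.clog 2 n ≠ 0 := (Nat.clog_pos one_lt_two hn1).ne'
    obtain ⟨k, hk⟩ := Nat.exists_eq_succ_of_ne_zero h3
    rw [hk, Nat.pred_succ] at h2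
    rw [hk, pow_succ]
    omega
  have h4 : 1 ≤ (Nat.clog 2 n + 1) + s := by omega
  calc 2 ^ ((Nat.clog 2 n + 1) + s) = 2 ^ Nat.clog 2 n * 2 ^ (s + 1) := by
        rw [← pow_add]
        congr 1
        ring
    _ ≤ 2 * n * 2 ^ (s + 1) := Nat.mul_le_mul_right _ h1
    _ = 2 ^ (s + 2) * n := by rw [pow_succ 2 (s + 1)]; ring
    _ ≤ n * n := Nat.mul_le_mul_right _ hn
    _ = n ^ 2 := (sq n).symm
    _ ≤ (n * ((Nat.clog 2 n + 1) + s)) ^ 2 :=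
        Nat.pow_le_pow_left (Nat.le_mul_of_pos_right n h4) 2

theorem xgenN (s K : ℕ) {ε₀ : ℝ} (h0 : 0 < ε₀) : ∃ (E : ℕ → ℕ) (G : ℕ → ℕ → ℕ → Bool), NG E G ∧
    ∃ n₀ : ℕ, ∀ n ≥ n₀, ∃ (M₁ M₂ : ℕ), 0 < M₁ ∧ 0 < M₂ ∧ ∃ (Y : Fin M₁ → Cube n)
      (Z : Fin M₂ → Cube (n * ((Nat.clog 2 n + 1) + s))),
      Bias (1 / ((n : ℝ) + 1) ^ K) Y ∧ Bias (1 / ((n : ℝ) + 1) ^ K) Z ∧
      (∀ l ≤ Nat.clog 2 n + 1, ∀ d,
        Dist (pd l s d) ε₀ (fun ω => wd (eta (Z ω) l) (hsh (Z ω)) d)) ∧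
      ∀ f : Cube n → ℂ, na (2 ^ E n) (fun p => f (out G n p)) =
        av fun v : Fin (Nat.clog 2 n + 1) → Fin (2 ^ s) → Bool => av fun ω₂ => av fun ω₁ =>
          f (gx (Y ω₁) (fun l => eta (Z ω₂) (l : ℕ)) (hsh (Z ω₂)) v) := by
  obtain ⟨E, G, hG, n₁, h⟩ := xgenZ2 s K 2 h0
  refine ⟨E, G, hG, max n₁ (2 ^ (s + 2)), fun n hn => ?_⟩
  obtain ⟨M₁, M₂, hM₁, hM₂, Y, Z, hY, hZ, hB, hout⟩ := h n
  refine ⟨M₁, M₂, hM₁, hM₂, Y, Z, hY, hZ, fun l hl d U => ?_, hout⟩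
  have : Nonempty (Fin M₂) := ⟨⟨0, hM₂⟩⟩
  obtain ⟨J, I, f, hf, hcc⟩ := cc_blk (n := n) (s := s) hl (by omega) d U
  have h1 := hB ((le_max_left _ _).trans hn) J I f
    (zc_blk_mono hf (zc_num s n ((le_max_right _ _).trans hn)))
  have h2 : (av fun ω => ∏ j ∈ J, f j (Z ω)) =
      ((avg fun ω => cc U (wd (eta (Z ω) l) (hsh (Z ω)) d) : ℝ) : ℂ) := by
    rw [← c0_av_ofReal]
    congr 1
    funext ω
    exact (hcc (Z ω)).symm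
  have h3 : (av fun z => ∏ j ∈ J, f j z) =
      (((1 - 2 * pd l s d) ^ U.card : ℝ) : ℂ) := by
    rw [← cc_avg hl d U, ← c0_av_ofReal]
    congr 1
    funext z
    exact (hcc z).symm
  rw [h2, h3, ← Complex.ofReal_sub, Complex.norm_real, Real.norm_eq_abs] at h1
  exact h1

end Pool.Agent.MP_ca1109_lc.Pn
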